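import Mathlib

/-!
# The curve `y² = x³ - 1` over `ℚ`, by infinite descent

Used for the uniform bound on the rational preperiodic points of `x^d + c`.
-/

namespace Pool.Agent.MP90787a.Uni

theorem exists_fourth {a b c : ℤ} (ha : 0 < a) (hb : 0 < b) (hab : IsCoprime a b)
    (h : a * b = c ^ 4) : ∃ m n : ℤ, 0 < m ∧ 0 < n ∧ a = m ^ 4 ∧ b = n ^ 4 := by
  have key : ∀ x y z : ℤ, 0 < x → 0 < y → IsCoprime x y → x * y = z ^ 4 →
      ∃ m : ℤ, 0 < m ∧ x = m ^ 4 := by
    intro x y z hx hy hxy hz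
    have h1 : x.natAbs * y.natAbs = z.natAbs ^ 4 := by
      rw [← Int.natAbs_mul, hz, Int.natAbs_pow]
    have h2 : IsUnit (gcd x.natAbs y.natAbs) := by
      have : Nat.Coprime x.natAbs y.natAbs := Int.isCoprime_iff_gcd_eq_one.1 hxy
      rw [Nat.isUnit_iff]
      exact this
    obtain ⟨d, hd⟩ := exists_eq_pow_of_mul_eq_pow h2 h1
    refine ⟨(d : ℤ), ?_, ?_⟩
    · rcases Nat.eq_zero_or_pos d with h0 | h0
      · rw [h0] at hd
        simp at hd
        omega
      · exact_mod_cast h0
    · have : (x.natAbs : ℤ) = (d : ℤ) ^ 4 := by exact_mod_cast hd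
      rwa [Int.natAbs_of_nonneg hx.le] at this
  obtain ⟨m, hm, hm'⟩ := key a b c ha hb hab h
  obtain ⟨n, hn, hn'⟩ := key b a c hb ha hab.symm (by rw [mul_comm]; exact h)
  exact ⟨m, n, hm, hn, hm', hn'⟩

theorem exists_square {a b c : ℤ} (ha : 0 < a) (hb : 0 < b) (hab : IsCoprime a b)
    (h : a * b = c ^ 2) : ∃ m n : ℤ, 0 < m ∧ 0 < n ∧ a = m ^ 2 ∧ b = n ^ 2 := by
  have key : ∀ x y z : ℤ, 0 < x → 0 < y → IsCoprime x y → x * y = z ^ 2 →
      ∃ m : ℤ, 0 < m ∧ x = m ^ 2 := by
    intro x y z hx hy hxy hz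
    have h1 : x.natAbs * y.natAbs = z.natAbs ^ 2 := by
      rw [← Int.natAbs_mul, hz, Int.natAbs_pow]
    have h2 : IsUnit (gcd x.natAbs y.natAbs) := by
      have : Nat.Coprime x.natAbs y.natAbs := Int.isCoprime_iff_gcd_eq_one.1 hxy
      rw [Nat.isUnit_iff]
      exact this
    obtain ⟨d, hd⟩ := exists_eq_pow_of_mul_eq_pow h2 h1
    refine ⟨(d : ℤ), ?_, ?_⟩
    · rcases Nat.eq_zero_or_pos d with h0 | h0
      · rw [h0] at hd
        simp at hd
        omega
      · exact_mod_cast h0
    · have : (x.natAbs : ℤ) = (d : ℤ) ^ 2 := by exact_mod_cast hd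
      rwa [Int.natAbs_of_nonneg hx.le] at this
  obtain ⟨m, hm, hm'⟩ := key a b c ha hb hab h
  obtain ⟨n, hn, hn'⟩ := key b a c hb ha hab.symm (by rw [mul_comm]; exact h)
  exact ⟨m, n, hm, hn, hm', hn'⟩

/-- If `x - y` (or `x + y`) is coprime to `x y` then `x` and `y` are coprime. -/
theorem coprime_of_sub {M N : ℤ} (h : IsCoprime (N - M) (M * N)) : IsCoprime M N := by
  have h1 : IsCoprime (N - M) M := h.of_mul_right_left
  have h2 : IsCoprime (N - M + M * 1) M := h1.add_mul_left_left 1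
  have h3 : N - M + M * 1 = N := by ring
  rw [h3] at h2
  exact h2.symm

theorem coprime_of_add {M N : ℤ} (h : IsCoprime (M + N) (M * N)) : IsCoprime M N := by
  have h1 : IsCoprime (M + N) M := h.of_mul_right_left
  have h2 : IsCoprime (M + N + M * (-1)) M := h1.add_mul_left_left (-1)
  have h3 : M + N + M * (-1) = N := by ring
  rw [h3] at h2
  exact h2.symm

theorem parity_aux : ∀ t m n : ZMod 8, t ^ 2 = n ^ 4 - 6 * m ^ 2 * n ^ 2 - 3 * m ^ 4 →
    t.val % 2 = 1 → m.val % 2 = 0 ∧ n.val % 2 = 1 := by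
  decide

theorem parity {t m n : ℤ} (h : t ^ 2 = n ^ 4 - 6 * m ^ 2 * n ^ 2 - 3 * m ^ 4) (ht : Odd t) :
    Even m ∧ Odd n := by
  have hval : ∀ x : ℤ, ((x : ZMod 8).val : ℤ) % 2 = x % 2 := by
    intro x
    rw [ZMod.val_intCast]
    omega
  have h1 := parity_aux (t : ZMod 8) (m : ZMod 8) (n : ZMod 8) (by exact_mod_cast congrArg (Int.cast : ℤ → ZMod 8) h)
  have h2 : (t : ZMod 8).val % 2 = 1 := by
    have := hval t
    rw [Int.odd_iff] at ht
    omega
  obtain ⟨h3, h4⟩ := h1 h2
  have h5 := hval m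
  have h6 := hval n
  rw [Int.even_iff, Int.odd_iff]
  omega

theorem not_three {x : ℤ} (h : IsCoprime x 3) : x % 3 = 1 ∨ x % 3 = 2 := by
  have : ¬ (3 : ℤ) ∣ x := by
    intro hd
    have h1 : IsUnit (3 : ℤ) := h.isUnit_of_dvd' hd dvd_rfl
    rw [Int.isUnit_iff] at h1
    omega
  omega

/-- There are no positive `α` with `β² = t⁴ + 3 α² t² + 3 α⁴`, `t` odd and coprime to `3 α`, `α` even. -/
theorem quartic (n : ℕ) : ∀ t α β : ℤ, 0 < t → 0 < α → α.toNat ≤ n → Odd t → Even α →
    IsCoprime t (3 * α) → β ^ 2 = t ^ 4 + 3 * α ^ 2 * t ^ 2 + 3 * α ^ 4 → False := by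
  induction n with
  | zero =>
    intro t α β _ hα hn
    omega
  | succ n ih =>
    intro t α β' ht hα hαn hto hαe hcop hβ'
    obtain ⟨a, ha⟩ := hαe
    have ha' : α = 2 * a := by rw [ha]; ring
    clear ha
    subst ha'
    have ha0 : 0 < a := by omega
    -- make `β` positive
    obtain ⟨β, hβ0, hβ⟩ : ∃ β : ℤ, 0 < β ∧ β ^ 2 = t ^ 4 + 3 * (2 * a) ^ 2 * t ^ 2 + 3 * (2 * a) ^ 4 := by
      refine ⟨|β'|, ?_, by rw [sq_abs]; exact hβ'⟩
      rw [abs_pos]
      intro h0
      rw [h0] at hβ'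
      have : 0 < t ^ 4 + 3 * (2 * a) ^ 2 * t ^ 2 + 3 * (2 * a) ^ 4 := by positivity
      rw [← hβ'] at this
      norm_num at this
    have hβo : Odd β := by
      have h1 : Odd (β ^ 2) := by
        rw [hβ]
        have : Odd (t ^ 4) := hto.pow
        obtain ⟨k, hk⟩ := this
        exact ⟨k + 6 * a ^ 2 * t ^ 2 + 24 * a ^ 4, by rw [hk]; ring⟩
      exact (Int.odd_pow' (by norm_num)).1 h1
    have hc3 : IsCoprime t 3 := hcop.of_mul_right_left
    have hc2a : IsCoprime t (2 * a) := hcop.of_mul_right_right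
    have hca : IsCoprime t a := hc2a.of_mul_right_right
    obtain ⟨τ, hτ⟩ : Odd (t ^ 2) := hto.pow
    obtain ⟨μ, hμ⟩ := hβo
    obtain ⟨M, hM⟩ : ∃ M, β - t ^ 2 - 6 * a ^ 2 = 2 * M := ⟨μ - τ - 3 * a ^ 2, by rw [hτ, hμ]; ring⟩
    obtain ⟨N, hN⟩ : ∃ N, β + t ^ 2 + 6 * a ^ 2 = 2 * N := ⟨μ + τ + 1 + 3 * a ^ 2, by rw [hτ, hμ]; ring⟩
    have hMN : M * N = 3 * a ^ 4 := by
      have : 4 * (M * N) = 4 * (3 * a ^ 4) := by
        have : (2 * M) * (2 * N) = (β - t ^ 2 - 6 * a ^ 2) * (β + t ^ 2 + 6 * a ^ 2) := by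
          rw [hM, hN]
        linear_combination this + hβ
      linarith
    have hNM : N - M = t ^ 2 + 6 * a ^ 2 := by linarith
    have hN0 : 0 < N := by
      have : 0 < β + t ^ 2 + 6 * a ^ 2 := by positivity
      linarith
    have hM0 : 0 < M := by
      have : 0 < M * N := by rw [hMN]; positivity
      exact pos_of_mul_pos_left this hN0.le
    have hcopMN : IsCoprime M N := by
      apply coprime_of_sub
      rw [hNM, hMN]
      refine IsCoprime.mul_right ?_ (IsCoprime.pow_right ?_)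
      · have h1 : IsCoprime (t ^ 2) 3 := hc3.pow_left
        rw [show t ^ 2 + 6 * a ^ 2 = t ^ 2 + 3 * (2 * a ^ 2) by ring]
        exact h1.add_mul_left_left _
      · have h1 : IsCoprime (t ^ 2) a := hca.pow_left
        rw [show t ^ 2 + 6 * a ^ 2 = t ^ 2 + a * (6 * a) by ring]
        exact h1.add_mul_left_left _
    have h3 : (3 : ℤ) ∣ M ∨ (3 : ℤ) ∣ N := by
      have hp : Prime (3 : ℤ) := Int.prime_three
      exact hp.dvd_or_dvd (by rw [hMN]; exact dvd_mul_right _ _)
    rcases h3 with ⟨M', hM'⟩ | ⟨N', hN'⟩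
    · -- `M = 3 M'`
      have hM'0 : 0 < M' := by omega
      have h4 : M' * N = a ^ 4 := by
        have : 3 * (M' * N) = 3 * a ^ 4 := by rw [← hMN, hM']; ring
        linarith
      have h5 : IsCoprime M' N := by
        rw [hM'] at hcopMN
        exact hcopMN.of_mul_left_right
      obtain ⟨m, n', hm, hn', hmM, hnN⟩ := exists_fourth hM'0 hN0 h5 h4
      have hamn : a = m * n' := by
        have h6 : a ^ 4 = (m * n') ^ 4 := by rw [← h4, hmM, hnN]; ring
        exact (pow_left_inj₀ ha0.le (mul_pos hm hn').le (by norm_num)).1 h6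
      have heq : t ^ 2 = n' ^ 4 - 6 * m ^ 2 * n' ^ 2 - 3 * m ^ 4 := by
        have : t ^ 2 = N - M - 6 * a ^ 2 := by linarith
        rw [this, hM', hmM, hnN, hamn]
        ring
      obtain ⟨hme, hno⟩ := parity heq hto
      have hcn3 : IsCoprime n' 3 := by
        have : IsCoprime (3 : ℤ) (n' ^ 4) := by
          rw [← hnN]
          rw [hM'] at hcopMN
          exact hcopMN.of_mul_left_left
        exact (IsCoprime.pow_right_iff (by norm_num)).1 this |>.symm
      have hcnm : IsCoprime n' m := by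
        have : IsCoprime (m ^ 4) (n' ^ 4) := by rw [← hnN, ← hmM]; exact h5
        exact ((IsCoprime.pow_iff (by norm_num) (by norm_num)).1 this).symm
      obtain ⟨τ', hτ'⟩ := hto
      obtain ⟨ν, hν⟩ : Odd (n' ^ 2 - 3 * m ^ 2) := by
        obtain ⟨x, hx⟩ := hme
        obtain ⟨y, hy⟩ : Odd (n' ^ 2) := hno.pow
        exact ⟨y - 6 * x ^ 2, by rw [hy, hx]; ring⟩
      obtain ⟨P, hP⟩ : ∃ P, n' ^ 2 - 3 * m ^ 2 - t = 2 * P := ⟨ν - τ', by rw [hν, hτ']; ring⟩
      obtain ⟨Q, hQ⟩ : ∃ Q, n' ^ 2 - 3 * m ^ 2 + t = 2 * Q := ⟨ν + τ' + 1, by rw [hν, hτ']; ring⟩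
      have hPQ : P * Q = 3 * m ^ 4 := by
        have : 4 * (P * Q) = 4 * (3 * m ^ 4) := by
          have : (2 * P) * (2 * Q) = (n' ^ 2 - 3 * m ^ 2 - t) * (n' ^ 2 - 3 * m ^ 2 + t) := by
            rw [hP, hQ]
          linear_combination this - heq
        linarith
      have hPQs : P + Q = n' ^ 2 - 3 * m ^ 2 := by linarith
      have hPQpos : 0 < P * Q := by rw [hPQ]; positivity
      have hcopPQ : IsCoprime P Q := by
        apply coprime_of_add
        rw [hPQs, hPQ]
        refine IsCoprime.mul_right ?_ (IsCoprime.pow_right ?_)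
        · have h1 : IsCoprime (n' ^ 2) 3 := hcn3.pow_left
          rw [show n' ^ 2 - 3 * m ^ 2 = n' ^ 2 + 3 * (-m ^ 2) by ring]
          exact h1.add_mul_left_left _
        · have h1 : IsCoprime (n' ^ 2) m := hcnm.pow_left
          rw [show n' ^ 2 - 3 * m ^ 2 = n' ^ 2 + m * (-3 * m) by ring]
          exact h1.add_mul_left_left _
      -- the two factors, up to order: `3 k⁴` and `l⁴`
      have hmain : ∀ X Y : ℤ, X * Y = 3 * m ^ 4 → X + Y = n' ^ 2 - 3 * m ^ 2 → IsCoprime X Y →
          (3 : ℤ) ∣ X → False := by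
        intro X Y hXY hXYs hXYc hX3
        obtain ⟨X', hX'⟩ := hX3
        have hXYpos : 0 < X * Y := by rw [hXY]; positivity
        have h6 : X' * Y = m ^ 4 := by
          have : 3 * (X' * Y) = 3 * m ^ 4 := by rw [← hXY, hX']; ring
          linarith
        have h7 : IsCoprime X' Y := by
          rw [hX'] at hXYc
          exact hXYc.of_mul_left_right
        have h8 : IsCoprime (3 : ℤ) Y := by
          rw [hX'] at hXYc
          exact hXYc.of_mul_left_left
        rcases lt_or_gt_of_ne (show Y ≠ 0 by rintro rfl; simp at hXYpos) with hYneg | hYpos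
        · -- both negative
          have hX'neg : X' < 0 := by
            have : 0 < X' * Y := by rw [h6]; positivity
            by_contra h
            push Not at h
            have := mul_nonpos_of_nonneg_of_nonpos h hYneg.le
            linarith
          obtain ⟨k, l, hk, hl, hkX, hlY⟩ := exists_fourth (neg_pos.2 hX'neg) (neg_pos.2 hYneg)
            (h7.neg_left.neg_right) (by rw [← h6]; ring : -X' * -Y = m ^ 4)
          have hmkl : m = k * l := by
            have h9 : m ^ 4 = (k * l) ^ 4 := by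
              rw [← h6, show X' = -(k ^ 4) by linarith, show Y = -(l ^ 4) by linarith]; ring
            exact (pow_left_inj₀ hm.le (mul_pos hk hl).le (by norm_num)).1 h9
          have h10 : n' ^ 2 = 3 * k ^ 2 * l ^ 2 - 3 * k ^ 4 - l ^ 4 := by
            have : n' ^ 2 = X + Y + 3 * m ^ 2 := by linarith
            rw [this, hX', show X' = -(k ^ 4) by linarith, show Y = -(l ^ 4) by linarith, hmkl]
            ring
          have h11 : 4 * n' ^ 2 = -(2 * l ^ 2 - 3 * k ^ 2) ^ 2 - 3 * k ^ 4 := by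
            rw [h10]; ring
          have h12 : 0 < n' ^ 2 := by positivity
          have h13 : 0 ≤ (2 * l ^ 2 - 3 * k ^ 2) ^ 2 := sq_nonneg _
          have h14 : 0 ≤ 3 * k ^ 4 := by positivity
          linarith
        · have hX'pos : 0 < X' := by
            have : 0 < X' * Y := by rw [h6]; positivity
            by_contra h
            push Not at h
            have := mul_nonpos_of_nonpos_of_nonneg h hYpos.le
            linarith
          obtain ⟨k, l, hk, hl, hkX, hlY⟩ := exists_fourth hX'pos hYpos h7 h6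
          have hmkl : m = k * l := by
            have h9 : m ^ 4 = (k * l) ^ 4 := by rw [← h6, hkX, hlY]; ring
            exact (pow_left_inj₀ hm.le (mul_pos hk hl).le (by norm_num)).1 h9
          have h10 : n' ^ 2 = l ^ 4 + 3 * k ^ 2 * l ^ 2 + 3 * k ^ 4 := by
            have : n' ^ 2 = X + Y + 3 * m ^ 2 := by linarith
            rw [this, hX', hkX, hlY, hmkl]
            ring
          have hckl : IsCoprime l k := by
            have : IsCoprime (k ^ 4) (l ^ 4) := by rw [← hkX, ← hlY]; exact h7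
            exact ((IsCoprime.pow_iff (by norm_num) (by norm_num)).1 this).symm
          have hcl3 : IsCoprime l 3 := by
            have : IsCoprime (3 : ℤ) (l ^ 4) := by rw [← hlY]; exact h8
            exact ((IsCoprime.pow_right_iff (by norm_num)).1 this).symm
          have hkeven : Even k := by
            by_contra hk'
            rw [Int.not_even_iff_odd] at hk'
            have hle : Even l := by
              by_contra hl'
              rw [Int.not_even_iff_odd] at hl'
              have : Odd m := by rw [hmkl]; exact hk'.mul hl'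
              exact (Int.not_even_iff_odd.2 this) hme
            obtain ⟨x, hx⟩ := hle
            obtain ⟨y, hy⟩ := hk'
            obtain ⟨z, hz⟩ := hno
            rw [hx, hy, hz] at h10
            have h11 : (2 * z + 1) ^ 2 = 4 * (z ^ 2 + z) + 1 := by ring
            have h12 : (x + x) ^ 4 + 3 * (2 * y + 1) ^ 2 * (x + x) ^ 2 + 3 * (2 * y + 1) ^ 4
                = 4 * (4 * x ^ 4 + 3 * (2 * y + 1) ^ 2 * x ^ 2 + 3 * (4 * y ^ 4 + 8 * y ^ 3 + 6 * y ^ 2 + 2 * y)) + 3 := by
              ring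
            rw [h11, h12] at h10
            omega
          have hlodd : Odd l := by
            by_contra hl'
            rw [Int.not_odd_iff_even] at hl'
            have h2k : (2 : ℤ) ∣ k := hkeven.two_dvd
            have h2l : (2 : ℤ) ∣ l := hl'.two_dvd
            have := hckl.isUnit_of_dvd' h2l h2k
            rw [Int.isUnit_iff] at this
            omega
          refine ih l k n' hl hk ?_ hlodd hkeven (hcl3.mul_right hckl) ?_
          · have h15 : k ≤ k * l := by nlinarith
            have h16 : k * l ≤ k * l * n' := by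
              have : 0 < k * l := mul_pos hk hl
              nlinarith
            have h17 : a = k * l * n' := by rw [hamn, hmkl]
            have h18 : k ≤ a := by linarith
            omega
          · rw [h10]
      rcases (Int.prime_three.dvd_or_dvd (show (3 : ℤ) ∣ P * Q by rw [hPQ]; exact dvd_mul_right _ _)) with h | h
      · exact hmain P Q hPQ hPQs hcopPQ h
      · exact hmain Q P (by rw [mul_comm]; exact hPQ) (by rw [add_comm]; exact hPQs) hcopPQ.symm h
    · -- `N = 3 N'`
      have hN'0 : 0 < N' := by omega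
      have h4 : M * N' = a ^ 4 := by
        have : 3 * (M * N') = 3 * a ^ 4 := by rw [← hMN, hN']; ring
        linarith
      have h5 : IsCoprime M N' := by
        rw [hN'] at hcopMN
        exact hcopMN.of_mul_right_right
      obtain ⟨m, n', hm, hn', hmM, hnN⟩ := exists_fourth hM0 hN'0 h5 h4
      have hamn : a ^ 4 = (m * n') ^ 4 := by rw [← h4, hmM, hnN]; ring
      have heq : t ^ 2 + m ^ 4 = 3 * (n' ^ 4 - 2 * a ^ 2) := by
        have : t ^ 2 = N - M - 6 * a ^ 2 := by linarith
        rw [this, hN', hmM, hnN]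
        ring
      have ht3 := not_three hc3
      have hm3 : m % 3 = 0 ∨ m % 3 = 1 ∨ m % 3 = 2 := by omega
      have h6 : (t ^ 2 + m ^ 4) % 3 = 0 := by rw [heq]; omega
      rcases ht3 with h | h <;> rcases hm3 with h' | h' | h' <;>
        simp [pow_succ, Int.add_emod, Int.mul_emod, h, h'] at h6

/-- The integral form of the statement that `y² = x³ - 1` has only the rational point `(1, 0)`
(under an extra parity assumption which makes the descent shorter). -/
theorem int_case {s t w : ℤ} (ht : Odd t) (hw : Even w) (hst : IsCoprime s t)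
    (h : s ^ 3 = w ^ 2 + t ^ 6) : w = 0 := by
  by_contra hw0
  have ht0 : t ≠ 0 := by
    rintro rfl
    simp at ht
  obtain ⟨u, hu⟩ : ∃ u, u = s - t ^ 2 := ⟨_, rfl⟩
  have hs : s = u + t ^ 2 := by rw [hu]; ring
  have hu0 : 0 < u := by
    have h1 : (t ^ 2) ^ 3 < s ^ 3 := by
      have : 0 < w ^ 2 := by positivity
      have : (t ^ 2) ^ 3 = t ^ 6 := by ring
      linarith
    have h2 : t ^ 2 < s := by
      by_contra hh
      push Not at hh
      have : s ^ 3 ≤ (t ^ 2) ^ 3 := by
        exact Odd.pow_le_pow (by decide : Odd 3) |>.2 hh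
      linarith
    linarith
  have hmul : u * (u ^ 2 + 3 * u * t ^ 2 + 3 * t ^ 4) = w ^ 2 := by
    rw [hs] at h
    linear_combination h
  have hcut : IsCoprime u t := by
    rw [hu, show s - t ^ 2 = s + t * (-t) by ring]
    exact hst.add_mul_left_left _
  obtain ⟨ω, hω⟩ := hw
  have hsodd : Odd s := by
    have h1 : Odd (s ^ 3) := by
      rw [h]
      obtain ⟨y, hy⟩ : Odd (t ^ 6) := ht.pow
      exact ⟨2 * ω ^ 2 + y, by rw [hy, hω]; ring⟩
    exact (Int.odd_pow' (by norm_num)).1 h1
  have hueven : Even u := by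
    rw [hu]
    exact hsodd.sub_odd ht.pow
  have hv0 : 0 < u ^ 2 + 3 * u * t ^ 2 + 3 * t ^ 4 := by positivity
  by_cases h3 : (3 : ℤ) ∣ u
  · obtain ⟨u', hu'⟩ := h3
    have hu'0 : 0 < u' := by omega
    have hw3 : (3 : ℤ) ∣ w := by
      have : (3 : ℤ) ∣ w ^ 2 := by
        rw [← hmul, hu', mul_assoc]
        exact dvd_mul_right _ _
      exact Int.prime_three.dvd_of_dvd_pow this
    obtain ⟨w', hw'⟩ := hw3
    have h4 : u' * (3 * u' ^ 2 + 3 * u' * t ^ 2 + t ^ 4) = w' ^ 2 := by
      have : 9 * (u' * (3 * u' ^ 2 + 3 * u' * t ^ 2 + t ^ 4)) = 9 * w' ^ 2 := by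
        rw [hw', hu'] at hmul
        linear_combination hmul
      linarith
    have hcu't : IsCoprime u' t := by
      rw [hu'] at hcut
      exact hcut.of_mul_left_right
    have hc3t : IsCoprime (3 : ℤ) t := by
      rw [hu'] at hcut
      exact hcut.of_mul_left_left
    have h5 : IsCoprime u' (3 * u' ^ 2 + 3 * u' * t ^ 2 + t ^ 4) := by
      have h6 : IsCoprime u' (t ^ 4) := hcu't.pow_right
      rw [show 3 * u' ^ 2 + 3 * u' * t ^ 2 + t ^ 4 = t ^ 4 + u' * (3 * u' + 3 * t ^ 2) by ring]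
      exact h6.add_mul_left_right _
    obtain ⟨α, β, hα, hβ, hαu, hβv⟩ := exists_square hu'0 (by positivity) h5 h4
    have hαe : Even α := by
      have : Even u' := by
        rw [hu'] at hueven
        rcases Int.even_mul.1 hueven with h | h
        · exact absurd h (by decide)
        · exact h
      rw [hαu] at this
      exact (Int.even_pow.1 this).1
    refine quartic α.toNat |t| α β (abs_pos.2 ht0) hα le_rfl ?_ hαe ?_ ?_
    · exact odd_abs.2 ht
    · have h7 : IsCoprime t (3 * α) := by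
        refine hc3t.symm.mul_right ?_
        rw [hαu] at hcu't
        exact ((IsCoprime.pow_left_iff (by norm_num)).1 hcu't).symm
      rcases abs_choice t with h8 | h8
      · rw [h8]; exact h7
      · rw [h8]; exact h7.neg_left
    · rw [← hβv, hαu]
      have h8 : |t| ^ 4 = t ^ 4 := by
        rw [show (4 : ℕ) = 2 * 2 by norm_num, pow_mul, pow_mul, sq_abs]
      rw [h8, sq_abs]
      ring
  · have hcu3 : IsCoprime u 3 := by
      rw [isCoprime_comm]
      exact (Int.prime_three.coprime_iff_not_dvd).2 h3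
    have h5 : IsCoprime u (u ^ 2 + 3 * u * t ^ 2 + 3 * t ^ 4) := by
      have h6 : IsCoprime u (3 * t ^ 4) := hcu3.mul_right hcut.pow_right
      rw [show u ^ 2 + 3 * u * t ^ 2 + 3 * t ^ 4 = 3 * t ^ 4 + u * (u + 3 * t ^ 2) by ring]
      exact h6.add_mul_left_right _
    obtain ⟨α, β, hα, hβ, hαu, hβv⟩ := exists_square hu0 hv0 h5 hmul
    have hαe : Even α := by
      rw [hαu] at hueven
      exact (Int.even_pow.1 hueven).1
    obtain ⟨x, hx⟩ := hαe
    obtain ⟨y, hy⟩ := ht
    have hβo : Odd β := by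
      have : Odd (β ^ 2) := by
        rw [← hβv, hαu, hx, hy]
        exact ⟨8 * x ^ 4 + 6 * x ^ 2 * (2 * y + 1) ^ 2 + 3 * (8 * y ^ 4 + 16 * y ^ 3 + 12 * y ^ 2 + 4 * y) + 1, by ring⟩
      exact (Int.odd_pow' (by norm_num)).1 this
    obtain ⟨z, hz⟩ := hβo
    rw [hαu, hx, hy, hz] at hβv
    have h11 : (2 * z + 1) ^ 2 = 4 * (z ^ 2 + z) + 1 := by ring
    have h12 : ((x + x) ^ 2) ^ 2 + 3 * (x + x) ^ 2 * (2 * y + 1) ^ 2 + 3 * (2 * y + 1) ^ 4
        = 4 * (4 * x ^ 4 + 3 * x ^ 2 * (2 * y + 1) ^ 2 + 3 * (4 * y ^ 4 + 8 * y ^ 3 + 6 * y ^ 2 + 2 * y)) + 3 := by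
      ring
    rw [h11, h12] at hβv
    omega

end Pool.Agent.MP90787a.Uni
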