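import Mathlib
import Pool.Agent.Lib.MP_90787a_nt.Uni.Descent

/-!
# Rational cubes by valuations, and the rational form of the descent
-/

namespace Pool.Agent.MP90787a.Uni

theorem nat_cube {n : ℕ} (hn : n ≠ 0) (h : ∀ p : ℕ, p.Prime → 3 ∣ padicValNat p n) :
    ∃ m : ℕ, n = m ^ 3 := by
  refine ⟨Nat.floorRoot 3 n, ?_⟩
  have hm : Nat.floorRoot 3 n ≠ 0 := by
    rw [Ne, Nat.floorRoot_eq_zero]
    omega
  apply Nat.eq_of_factorization_eq hn (pow_ne_zero _ hm)
  intro p
  rw [Nat.factorization_pow, Nat.factorization_floorRoot]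
  by_cases hp : p.Prime
  · have h1 := h p hp
    rw [← Nat.factorization_def n hp] at h1
    simp only [Finsupp.smul_apply, smul_eq_mul]
    obtain ⟨k, hk⟩ := h1
    have h2 : (n.factorization ⌊/⌋ 3) p = n.factorization p ⌊/⌋ 3 := rfl
    rw [h2, Nat.floorDiv_eq_div, hk]
    omega
  · simp only [Finsupp.smul_apply, smul_eq_mul]
    have h2 : (n.factorization ⌊/⌋ 3) p = n.factorization p ⌊/⌋ 3 := rfl
    rw [h2, Nat.floorDiv_eq_div, Nat.factorization_eq_zero_of_not_prime n hp]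

/-- A nonzero rational number all of whose valuations are divisible by `3` is a cube. -/
theorem rat_cube {r : ℚ} (hr : r ≠ 0) (h : ∀ p : ℕ, p.Prime → (3 : ℤ) ∣ padicValRat p r) :
    ∃ ρ : ℚ, r = ρ ^ 3 := by
  have hnum : r.num.natAbs ≠ 0 := by
    rw [Int.natAbs_ne_zero]
    exact Rat.num_ne_zero.2 hr
  have hden : r.den ≠ 0 := r.den_nz
  have hcop : Nat.Coprime r.num.natAbs r.den := r.reduced
  have key : ∀ p : ℕ, p.Prime → 3 ∣ padicValNat p r.num.natAbs ∧ 3 ∣ padicValNat p r.den := by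
    intro p hp
    have := Fact.mk hp
    have h1 := h p hp
    rw [padicValRat_def, padicValInt] at h1
    by_cases hd : p ∣ r.den
    · have h2 : ¬ p ∣ r.num.natAbs := fun h3 => hp.one_lt.ne' (Nat.eq_one_of_dvd_coprimes hcop h3 hd)
      rw [padicValNat.eq_zero_of_not_dvd h2] at h1 ⊢
      refine ⟨dvd_zero _, ?_⟩
      omega
    · rw [padicValNat.eq_zero_of_not_dvd hd] at h1 ⊢
      refine ⟨?_, dvd_zero _⟩
      omega
  obtain ⟨a, ha⟩ := nat_cube hnum (fun p hp => (key p hp).1)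
  obtain ⟨b, hb⟩ := nat_cube hden (fun p hp => (key p hp).2)
  have hb0 : (b : ℚ) ≠ 0 := by
    intro h0
    have : b = 0 := by exact_mod_cast h0
    rw [this] at hb
    simp at hb
  have hr' : r = r.num / r.den := (Rat.num_div_den r).symm
  rcases Int.natAbs_eq r.num with h1 | h1
  · refine ⟨a / b, ?_⟩
    rw [hr', h1, ha, hb]
    push_cast
    rw [div_pow]
  · refine ⟨-(a / b), ?_⟩
    rw [hr', h1, ha, hb]
    push_cast
    rw [Odd.neg_pow (by decide), div_pow, neg_div]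

/-- The rational form of `int_case`. -/
theorem rat_case {ρ η : ℚ} (h : η ^ 2 = ρ ^ 3 - 1) (h2 : η ≠ 0 → 0 < padicValRat 2 η) : η = 0 := by
  by_contra hη
  have hv := h2 hη
  have hden : η.den ^ 2 = ρ.den ^ 3 := by
    have h3 : (η ^ 2).den = (ρ ^ 3).den := by
      rw [h]
      have := Rat.sub_intCast_den (ρ ^ 3) 1
      exact_mod_cast this
    rwa [Rat.den_pow, Rat.den_pow] at h3
  -- `ρ.den = t²`, `η.den = t³`
  obtain ⟨t, ht1, ht2⟩ : ∃ t : ℕ, ρ.den = t ^ 2 ∧ η.den = t ^ 3 := by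
    have h4 : ρ.den ∣ η.den := by
      have : ρ.den ^ 2 ∣ η.den ^ 2 := ⟨ρ.den, by rw [hden]; ring⟩
      exact (Nat.pow_dvd_pow_iff (by norm_num)).1 this
    obtain ⟨t, ht⟩ := h4
    refine ⟨t, ?_, ?_⟩
    · have h5 : ρ.den ^ 2 * t ^ 2 = ρ.den ^ 2 * ρ.den := by
        rw [← mul_pow, ← ht, hden]; ring
      exact (Nat.eq_of_mul_eq_mul_left (by have := ρ.pos; positivity) h5).symm
    · have h5 : ρ.den ^ 2 * t ^ 2 = ρ.den ^ 2 * ρ.den := by
        rw [← mul_pow, ← ht, hden]; ring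
      have h6 := (Nat.eq_of_mul_eq_mul_left (by have := ρ.pos; positivity) h5).symm
      rw [ht, h6]; ring
  have ht0 : (t : ℚ) ≠ 0 := by
    intro h0
    have : t = 0 := by exact_mod_cast h0
    rw [this] at ht1
    have := ρ.den_nz
    simp at ht1
  have hρ : ρ = ρ.num / (t : ℚ) ^ 2 := by
    conv_lhs => rw [← Rat.num_div_den ρ, ht1]
    push_cast
    rfl
  have hη' : η = η.num / (t : ℚ) ^ 3 := by
    conv_lhs => rw [← Rat.num_div_den η, ht2]
    push_cast
    rfl
  have heq : (ρ.num : ℤ) ^ 3 = η.num ^ 2 + (t : ℤ) ^ 6 := by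
    have h7 : (ρ.num : ℚ) ^ 3 = (η.num : ℚ) ^ 2 + (t : ℚ) ^ 6 := by
      have h8 : (η.num / (t : ℚ) ^ 3) ^ 2 = (ρ.num / (t : ℚ) ^ 2) ^ 3 - 1 := by
        rw [← hη', ← hρ]; exact h
      field_simp at h8
      linarith
    exact_mod_cast h7
  have : Fact (Nat.Prime 2) := ⟨Nat.prime_two⟩
  have hnumeven : Even η.num := by
    rw [Int.even_iff]
    by_contra h9
    have h10 : ¬ 2 ∣ η.num.natAbs := by omega
    rw [padicValRat_def, padicValInt, padicValNat.eq_zero_of_not_dvd h10] at hv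
    omega
  have htodd : Odd (t : ℤ) := by
    rw [Int.odd_iff]
    by_contra h9
    have h10 : 2 ∣ t := by omega
    have h11 : 2 ∣ η.den := by
      rw [ht2]
      exact dvd_pow h10 (by norm_num)
    have h12 : 2 ∣ η.num.natAbs := by
      rw [Int.even_iff] at hnumeven
      omega
    have := Nat.eq_one_of_dvd_coprimes η.reduced h12 h11
    omega
  have hcop : IsCoprime ρ.num (t : ℤ) := by
    have h13 : IsCoprime ρ.num ((t : ℤ) ^ 2) := by
      have := ρ.reduced
      rw [ht1] at this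
      rw [Int.isCoprime_iff_gcd_eq_one, Int.gcd]
      rw [Int.natAbs_pow, Int.natAbs_natCast]
      exact this
    exact (IsCoprime.pow_right_iff (by norm_num)).1 h13
  have := int_case htodd hnumeven hcop heq
  exact hη (Rat.num_eq_zero.1 this)

end Pool.Agent.MP90787a.Uni
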