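import Mathlib

/-!
# Valuations of differences of powers of rational numbers
-/

namespace Pool.Agent.MP90787a.Uni

variable {p : ℕ} [hp : Fact p.Prime]

/-- The `p`-adic norm of a rational number is a power of `p`. -/
theorem norm_eq {x : ℚ} (hx : x ≠ 0) : ‖(x : ℚ_[p])‖ = (p : ℝ) ^ (-padicValRat p x) := by
  have h1 : (x : ℚ_[p]) ≠ 0 := by exact_mod_cast hx
  rw [Padic.norm_eq_zpow_neg_valuation h1, Padic.valuation_ratCast]

theorem one_lt_p : (1 : ℝ) < p := by exact_mod_cast hp.out.one_lt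

theorem norm_lt_iff {x y : ℚ} (hx : x ≠ 0) (hy : y ≠ 0) :
    ‖(x : ℚ_[p])‖ < ‖(y : ℚ_[p])‖ ↔ padicValRat p y < padicValRat p x := by
  rw [norm_eq hx, norm_eq hy, zpow_lt_zpow_iff_right₀ one_lt_p]
  omega

theorem norm_eq_iff {x y : ℚ} (hx : x ≠ 0) (hy : y ≠ 0) :
    ‖(x : ℚ_[p])‖ = ‖(y : ℚ_[p])‖ ↔ padicValRat p x = padicValRat p y := by
  constructor
  · intro h
    have h1 := (norm_lt_iff (p := p) hx hy).not.1 (by rw [h]; exact lt_irrefl _)
    have h2 := (norm_lt_iff (p := p) hy hx).not.1 (by rw [h]; exact lt_irrefl _)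
    omega
  · intro h
    rw [norm_eq hx, norm_eq hy, h]

theorem norm_eq_one_iff {x : ℚ} (hx : x ≠ 0) : ‖(x : ℚ_[p])‖ = 1 ↔ padicValRat p x = 0 := by
  have := norm_eq_iff (p := p) hx one_ne_zero
  rw [padicValRat.one] at this
  rw [← this]
  simp

theorem norm_le_one_iff {x : ℚ} (hx : x ≠ 0) : ‖(x : ℚ_[p])‖ ≤ 1 ↔ 0 ≤ padicValRat p x := by
  have := (norm_lt_iff (p := p) one_ne_zero hx).not
  rw [padicValRat.one] at this
  push_cast at this
  rw [norm_one] at this
  constructor
  · intro h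
    have := this.1 (not_lt.2 h)
    omega
  · intro h
    exact not_lt.1 (this.2 (by omega))

/-- Valuation of a sum when the valuations differ. -/
theorem val_add_of_lt {x y : ℚ} (hx : x ≠ 0) (h : y = 0 ∨ padicValRat p x < padicValRat p y) :
    x + y ≠ 0 ∧ padicValRat p (x + y) = padicValRat p x := by
  rcases eq_or_ne y 0 with rfl | hy
  · simp [hx]
  · have h' : padicValRat p x < padicValRat p y := by
      rcases h with h | h
      · exact absurd h hy
      · exact h
    have hxy : x + y ≠ 0 := by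
      intro h0
      have : x = -y := by linarith
      rw [this, padicValRat.neg] at h'
      exact lt_irrefl _ h'
    exact ⟨hxy, padicValRat.add_eq_of_lt hxy hx hy h'⟩

/-- Lifting the exponent for rational numbers close to `1`. -/
theorem lte_one (hp2 : p ≠ 2) {u : ℚ} (hu : u ≠ 1) (hv : 0 < padicValRat p (u - 1)) {m : ℕ}
    (hm : m ≠ 0) : u ^ m ≠ 1 ∧ padicValRat p (u ^ m - 1) = padicValRat p (u - 1) + padicValNat p m := by
  have hB : (u.den : ℚ) ≠ 0 := by exact_mod_cast u.den_nz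
  have hu' : u = u.num / u.den := (Rat.num_div_den u).symm
  have hsub : u - 1 = ((u.num - u.den : ℤ) : ℚ) / (u.den : ℚ) := by
    conv_lhs => rw [hu']
    push_cast
    field_simp
  have hAB : (u.num - u.den : ℤ) ≠ 0 := by
    intro h0
    rw [h0] at hsub
    simp at hsub
    exact hu (by linarith)
  have hABq : ((u.num - u.den : ℤ) : ℚ) ≠ 0 := by exact_mod_cast hAB
  rw [hsub, padicValRat.div hABq hB, padicValRat.of_int, padicValRat.of_nat] at hv
  have hdvd : (p : ℤ) ∣ u.num - u.den := by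
    by_contra h
    rw [padicValInt.eq_zero_of_not_dvd h] at hv
    omega
  have hBp : ¬ (p : ℤ) ∣ u.den := by
    intro h
    have h1 : (p : ℤ) ∣ u.num := by
      have := dvd_add hdvd h
      simpa using this
    have h2 : p ∣ u.num.natAbs := Int.natCast_dvd.1 h1
    have h3 : p ∣ u.den := by exact_mod_cast h
    exact hp.out.one_lt.ne' (Nat.eq_one_of_dvd_coprimes u.reduced h2 h3)
  have hAp : ¬ (p : ℤ) ∣ u.num := by
    intro h
    apply hBp
    have := dvd_sub h hdvd
    simpa using this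
  have hodd : Odd p := hp.out.odd_of_ne_two hp2
  have hpow : (u.num ^ m - (u.den : ℤ) ^ m : ℤ) ≠ 0 := by
    intro h0
    have h1 : emultiplicity (p : ℤ) (u.num ^ m - (u.den : ℤ) ^ m) =
        emultiplicity (p : ℤ) (u.num - u.den) + emultiplicity p m :=
      Int.emultiplicity_pow_sub_pow hp.out hodd hdvd hAp m
    rw [h0, emultiplicity_zero] at h1
    have h2 : emultiplicity (p : ℤ) (u.num - u.den) ≠ ⊤ := by
      have : FiniteMultiplicity (p : ℤ) (u.num - u.den) := padicValRat.finite_int_prime_iff.2 hAB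
      exact finiteMultiplicity_iff_emultiplicity_ne_top.1 this
    have h3 : emultiplicity p m ≠ ⊤ := by
      have : FiniteMultiplicity p m := Nat.finiteMultiplicity_iff.2 ⟨hp.out.one_lt.ne', Nat.pos_of_ne_zero hm⟩
      exact finiteMultiplicity_iff_emultiplicity_ne_top.1 this
    exact (WithTop.add_ne_top.2 ⟨h2, h3⟩) h1.symm
  have hval : (padicValInt p (u.num ^ m - (u.den : ℤ) ^ m) : ℤ) =
      padicValInt p (u.num - u.den) + padicValNat p m := by
    have h1 : emultiplicity (p : ℤ) (u.num ^ m - (u.den : ℤ) ^ m) =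
        emultiplicity (p : ℤ) (u.num - u.den) + emultiplicity p m :=
      Int.emultiplicity_pow_sub_pow hp.out hodd hdvd hAp m
    have e1 : ∀ z : ℤ, z ≠ 0 → emultiplicity (p : ℤ) z = (padicValInt p z : ℕ∞) := by
      intro z hz
      rw [padicValInt, padicValNat_eq_emultiplicity (Int.natAbs_ne_zero.2 hz),
        ← Int.emultiplicity_natAbs]
    rw [e1 _ hpow, e1 _ hAB, ← padicValNat_eq_emultiplicity hm] at h1
    exact_mod_cast h1
  have hsub' : u ^ m - 1 = ((u.num ^ m - (u.den : ℤ) ^ m : ℤ) : ℚ) / (u.den : ℚ) ^ m := by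
    conv_lhs => rw [hu']
    push_cast
    rw [div_pow]
    field_simp
  have hpowq : ((u.num ^ m - (u.den : ℤ) ^ m : ℤ) : ℚ) ≠ 0 := by exact_mod_cast hpow
  have hBv : padicValNat p u.den = 0 := padicValNat.eq_zero_of_not_dvd (by
    intro h
    exact hBp (by exact_mod_cast h))
  constructor
  · intro h1
    rw [h1, sub_self] at hsub'
    have : ((u.num ^ m - (u.den : ℤ) ^ m : ℤ) : ℚ) = 0 := by
      have := (div_eq_zero_iff.1 hsub'.symm)
      rcases this with h | h
      · exact h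
      · exact absurd h (pow_ne_zero _ hB)
    exact hpowq this
  · rw [hsub', hsub, padicValRat.div hpowq (pow_ne_zero _ hB), padicValRat.div hABq hB,
      padicValRat.pow, padicValRat.of_int, padicValRat.of_int, padicValRat.of_nat, hBv, hval]
    simp

/-- Lifting the exponent for rational numbers. -/
theorem lte (hp2 : p ≠ 2) {x y : ℚ} (hy : y ≠ 0) (hxy : x ≠ y)
    (hlt : padicValRat p y < padicValRat p (x - y)) {m : ℕ} (hm : m ≠ 0) :
    x ^ m ≠ y ^ m ∧ padicValRat p (x ^ m - y ^ m) =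
      padicValRat p (x - y) + (m - 1) * padicValRat p y + padicValNat p m := by
  have h1 : x / y - 1 = (x - y) / y := by field_simp
  have hxy' : x - y ≠ 0 := sub_ne_zero.2 hxy
  have h2 : 0 < padicValRat p (x / y - 1) := by
    rw [h1, padicValRat.div hxy' hy]
    omega
  have h3 : x / y ≠ 1 := by
    intro h
    rw [div_eq_one_iff_eq hy] at h
    exact hxy h
  obtain ⟨h4, h5⟩ := lte_one hp2 h3 h2 hm
  have h6 : x ^ m - y ^ m = y ^ m * ((x / y) ^ m - 1) := by
    rw [div_pow]
    field_simp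
  have h7 : (x / y) ^ m - 1 ≠ 0 := sub_ne_zero.2 h4
  constructor
  · intro h
    rw [h, sub_self] at h6
    rcases mul_eq_zero.1 h6.symm with h | h
    · exact pow_ne_zero m hy h
    · exact h7 h
  · rw [h6, padicValRat.mul (pow_ne_zero m hy) h7, h5, padicValRat.pow, h1,
      padicValRat.div hxy' hy]
    ring

/-- If the total excess of `X⁴ - Y⁴` is divisible by `3`, so is that of each factor. -/
theorem split (hp2 : p ≠ 2) {X Y : ℚ} (hX : X ≠ 0) (hY : Y ≠ 0)
    (hv : padicValRat p X = padicValRat p Y) (h1 : X ≠ Y) (h2 : X ≠ -Y)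
    (h3 : (3 : ℤ) ∣ padicValRat p (X ^ 4 - Y ^ 4) - 4 * padicValRat p Y) :
    (3 : ℤ) ∣ padicValRat p (X - Y) - padicValRat p Y ∧
    (3 : ℤ) ∣ padicValRat p (X + Y) - padicValRat p Y ∧
    (3 : ℤ) ∣ padicValRat p (X ^ 2 + Y ^ 2) - 2 * padicValRat p Y := by
  have a1 : X - Y ≠ 0 := sub_ne_zero.2 h1
  have a2 : X + Y ≠ 0 := by
    intro h
    exact h2 (by linarith)
  have a3 : X ^ 2 + Y ^ 2 ≠ 0 := by positivity
  have hfac : X ^ 4 - Y ^ 4 = (X - Y) * (X + Y) * (X ^ 2 + Y ^ 2) := by ring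
  rw [hfac, padicValRat.mul (mul_ne_zero a1 a2) a3, padicValRat.mul a1 a2] at h3
  have htwo : padicValRat p (2 : ℚ) = 0 := by
    have h : padicValRat p ((2 : ℕ) : ℚ) = padicValNat p 2 := padicValRat.of_nat
    rw [Nat.cast_ofNat] at h
    rw [h]
    have : ¬ p ∣ 2 := by
      intro hd
      exact hp2 ((Nat.prime_dvd_prime_iff_eq hp.out Nat.prime_two).1 hd)
    rw [padicValNat.eq_zero_of_not_dvd this]
    rfl
  have v2Y : padicValRat p (2 * Y) = padicValRat p Y := by
    rw [padicValRat.mul two_ne_zero hY, htwo, zero_add]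
  have v2Y2 : padicValRat p (2 * Y ^ 2) = 2 * padicValRat p Y := by
    rw [padicValRat.mul two_ne_zero (pow_ne_zero 2 hY), htwo, padicValRat.pow]
    push_cast
    ring
  have e1 : padicValRat p Y ≤ padicValRat p (X - Y) := by
    have := padicValRat.le_padicValRat_add_of_le (p := p) (q := -Y) (r := X)
      (by rw [neg_add_eq_sub]; exact a1) (by rw [padicValRat.neg, hv])
    rwa [padicValRat.neg, neg_add_eq_sub] at this
  have e2 : padicValRat p Y ≤ padicValRat p (X + Y) := by
    have := padicValRat.le_padicValRat_add_of_le (p := p) (q := Y) (r := X)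
      (by rw [add_comm]; exact a2) (by rw [hv])
    rwa [add_comm] at this
  have e3 : 2 * padicValRat p Y ≤ padicValRat p (X ^ 2 + Y ^ 2) := by
    have := padicValRat.le_padicValRat_add_of_le (p := p) (q := Y ^ 2) (r := X ^ 2)
      (by rw [add_comm]; exact a3) (by rw [padicValRat.pow, padicValRat.pow, hv])
    rw [padicValRat.pow, add_comm (Y ^ 2)] at this
    push_cast at this
    exact this
  rcases e1.lt_or_eq with g1 | g1
  · have f2 := (val_add_of_lt (p := p) (x := 2 * Y) (y := X - Y) (mul_ne_zero two_ne_zero hY)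
      (Or.inr (by rw [v2Y]; exact g1))).2
    rw [v2Y, show 2 * Y + (X - Y) = X + Y by ring] at f2
    have f3 := (val_add_of_lt (p := p) (x := 2 * Y ^ 2) (y := (X - Y) * (X + Y))
      (mul_ne_zero two_ne_zero (pow_ne_zero 2 hY))
      (Or.inr (by rw [v2Y2, padicValRat.mul a1 a2]; omega))).2
    rw [v2Y2, show 2 * Y ^ 2 + (X - Y) * (X + Y) = X ^ 2 + Y ^ 2 by ring] at f3
    refine ⟨?_, ?_, ?_⟩ <;> omega
  · rcases e2.lt_or_eq with g2 | g2
    · have f3 := (val_add_of_lt (p := p) (x := 2 * Y ^ 2) (y := (X - Y) * (X + Y))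
        (mul_ne_zero two_ne_zero (pow_ne_zero 2 hY))
        (Or.inr (by rw [v2Y2, padicValRat.mul a1 a2]; omega))).2
      rw [v2Y2, show 2 * Y ^ 2 + (X - Y) * (X + Y) = X ^ 2 + Y ^ 2 by ring] at f3
      refine ⟨?_, ?_, ?_⟩ <;> omega
    · refine ⟨?_, ?_, ?_⟩ <;> omega

end Pool.Agent.MP90787a.Uni
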