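import Mathlib
import Pool.Agent.Lib.MP_90787a_nt.Uni.Val

/-!
# Preperiodic points of `x ^ d + c`: basic dynamics and local bounds
-/

namespace Pool.Agent.MP90787a.Uni

open Function

/-- The map `x ↦ x ^ d + c`. -/
def F (d : ℕ) (c x : ℚ) : ℚ := x ^ d + c

/-- Rational preperiodic points. -/
def Pre (d : ℕ) (c : ℚ) : Set ℚ :=
  {x | ∃ i j : ℕ, i < j ∧ (F d c)^[i] x = (F d c)^[j] x}

variable {d : ℕ} {c : ℚ}

theorem F_mem {x : ℚ} (hx : x ∈ Pre d c) : F d c x ∈ Pre d c := by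
  obtain ⟨i, j, hij, h⟩ := hx
  refine ⟨i, j, hij, ?_⟩
  rw [← iterate_succ_apply, ← iterate_succ_apply, iterate_succ_apply', iterate_succ_apply', h]

theorem iter_mem {x : ℚ} (hx : x ∈ Pre d c) (n : ℕ) : (F d c)^[n] x ∈ Pre d c := by
  induction n with
  | zero => exact hx
  | succ n ih => rw [iterate_succ_apply']; exact F_mem ih

theorem mem_of_F_mem {x : ℚ} (hx : F d c x ∈ Pre d c) : x ∈ Pre d c := by
  obtain ⟨i, j, hij, h⟩ := hx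
  exact ⟨i + 1, j + 1, by omega, by rw [iterate_succ_apply, iterate_succ_apply]; exact h⟩

theorem F_neg (hd : Even d) (x : ℚ) : F d c (-x) = F d c x := by
  unfold F
  rw [hd.neg_pow]

theorem neg_mem (hd : Even d) {x : ℚ} (hx : x ∈ Pre d c) : -x ∈ Pre d c := by
  apply mem_of_F_mem
  rw [F_neg hd]
  exact F_mem hx

theorem per_mem {x : ℚ} (hx : x ∈ periodicPts (F d c)) : x ∈ Pre d c := by
  obtain ⟨n, hn, h⟩ := hx
  exact ⟨0, n, hn, h.symm⟩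

theorem exists_per {x : ℚ} (hx : x ∈ Pre d c) : ∃ m, (F d c)^[m] x ∈ periodicPts (F d c) := by
  obtain ⟨i, j, hij, h⟩ := hx
  refine ⟨i, j - i, by omega, ?_⟩
  show (F d c)^[j - i] ((F d c)^[i] x) = (F d c)^[i] x
  rw [← iterate_add_apply, Nat.sub_add_cancel hij.le, h]

theorem exists_pre_per {y : ℚ} (hy : y ∈ periodicPts (F d c)) :
    ∃ u ∈ periodicPts (F d c), F d c u = y := by
  obtain ⟨u, hu, h⟩ := (bijOn_periodicPts (F d c)).surjOn hy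
  exact ⟨u, hu, h⟩

theorem F_per {y : ℚ} (hy : y ∈ periodicPts (F d c)) : F d c y ∈ periodicPts (F d c) :=
  (bijOn_periodicPts (F d c)).mapsTo hy

theorem per_inj {x y : ℚ} (hx : x ∈ periodicPts (F d c)) (hy : y ∈ periodicPts (F d c))
    (h : F d c x = F d c y) : x = y :=
  (bijOn_periodicPts (F d c)).injOn hx hy h

section Local

variable {p : ℕ} [hp : Fact p.Prime]

theorem norm_F_of_lt {x : ℚ} (h : ‖(c : ℚ_[p])‖ < ‖(x : ℚ_[p])‖ ^ d) :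
    ‖((F d c x : ℚ) : ℚ_[p])‖ = ‖(x : ℚ_[p])‖ ^ d := by
  unfold F
  push_cast
  rw [Padic.add_eq_max_of_ne (by rw [norm_pow]; exact h.ne'), norm_pow, max_eq_left h.le]

theorem norm_F_of_gt {x : ℚ} (h : ‖(x : ℚ_[p])‖ ^ d < ‖(c : ℚ_[p])‖) :
    ‖((F d c x : ℚ) : ℚ_[p])‖ = ‖(c : ℚ_[p])‖ := by
  unfold F
  push_cast
  rw [Padic.add_eq_max_of_ne (by rw [norm_pow]; exact h.ne), norm_pow, max_eq_right h.le]

theorem escape (hd : 2 ≤ d) {x : ℚ} (h1 : 1 < ‖(x : ℚ_[p])‖)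
    (h2 : ‖(c : ℚ_[p])‖ < ‖(x : ℚ_[p])‖ ^ d) : x ∉ Pre d c := by
  have step : ∀ y : ℚ, 1 < ‖(y : ℚ_[p])‖ → ‖(c : ℚ_[p])‖ < ‖(y : ℚ_[p])‖ ^ d →
      ‖(y : ℚ_[p])‖ < ‖((F d c y : ℚ) : ℚ_[p])‖ := by
    intro y hy1 hy2
    rw [norm_F_of_lt hy2]
    exact lt_self_pow₀ hy1 (by omega)
  have all : ∀ n, 1 < ‖(((F d c)^[n] x : ℚ) : ℚ_[p])‖ ∧
      ‖(c : ℚ_[p])‖ < ‖(((F d c)^[n] x : ℚ) : ℚ_[p])‖ ^ d := by
    intro n
    induction n with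
    | zero => exact ⟨h1, h2⟩
    | succ n ih =>
      rw [iterate_succ_apply']
      have h3 := step _ ih.1 ih.2
      refine ⟨ih.1.trans h3, ?_⟩
      calc ‖(c : ℚ_[p])‖ < ‖(((F d c)^[n] x : ℚ) : ℚ_[p])‖ ^ d := ih.2
        _ ≤ _ := pow_le_pow_left₀ (norm_nonneg _) h3.le d
  have mono : StrictMono (fun n => ‖(((F d c)^[n] x : ℚ) : ℚ_[p])‖) := by
    apply strictMono_nat_of_lt_succ
    intro n
    rw [iterate_succ_apply']
    exact step _ (all n).1 (all n).2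
  rintro ⟨i, j, hij, h⟩
  have := mono hij
  simp only [h, lt_self_iff_false] at this

/-- At places where `c` is integral, preperiodic points are integral. -/
theorem norm_le_one_of_pre (hd : 2 ≤ d) (hc : ‖(c : ℚ_[p])‖ ≤ 1) {x : ℚ} (hx : x ∈ Pre d c) :
    ‖(x : ℚ_[p])‖ ≤ 1 := by
  by_contra h
  rw [not_le] at h
  refine escape hd h ?_ hx
  exact hc.trans_lt (one_lt_pow₀ h (by omega))

/-- At places where `c` is not integral, preperiodic points satisfy `|x| ^ d = |c|`. -/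
theorem norm_pow_eq_of_pre (hd : 2 ≤ d) (hc : 1 < ‖(c : ℚ_[p])‖) {x : ℚ} (hx : x ∈ Pre d c) :
    ‖(x : ℚ_[p])‖ ^ d = ‖(c : ℚ_[p])‖ := by
  rcases lt_trichotomy (‖(x : ℚ_[p])‖ ^ d) ‖(c : ℚ_[p])‖ with h | h | h
  · exfalso
    refine escape (p := p) hd (x := F d c x) ?_ ?_ (F_mem hx)
    · rw [norm_F_of_gt h]; exact hc
    · rw [norm_F_of_gt h]
      exact lt_self_pow₀ hc (by omega)
  · exact h
  · exfalso
    refine escape hd ?_ h hx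
    by_contra h1
    rw [not_lt] at h1
    have := pow_le_one₀ (n := d) (norm_nonneg _) h1
    linarith

theorem ne_zero_of_pre (hd : 2 ≤ d) (hc : 1 < ‖(c : ℚ_[p])‖) {x : ℚ} (hx : x ∈ Pre d c) :
    x ≠ 0 := by
  rintro rfl
  have := norm_pow_eq_of_pre hd hc hx
  rw [Rat.cast_zero, norm_zero, zero_pow (by omega)] at this
  linarith

theorem norm_eq_of_pre (hd : 2 ≤ d) (hc : 1 < ‖(c : ℚ_[p])‖) {x y : ℚ} (hx : x ∈ Pre d c)
    (hy : y ∈ Pre d c) : ‖(x : ℚ_[p])‖ = ‖(y : ℚ_[p])‖ := by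
  have h1 := norm_pow_eq_of_pre hd hc hx
  have h2 := norm_pow_eq_of_pre hd hc hy
  exact (pow_left_inj₀ (norm_nonneg _) (norm_nonneg _) (by omega)).1 (h1.trans h2.symm)

theorem val_eq_of_pre (hd : 2 ≤ d) (hc : 1 < ‖(c : ℚ_[p])‖) {x y : ℚ} (hx : x ∈ Pre d c)
    (hy : y ∈ Pre d c) : padicValRat p x = padicValRat p y :=
  (norm_eq_iff (ne_zero_of_pre hd hc hx) (ne_zero_of_pre hd hc hy)).1 (norm_eq_of_pre hd hc hx hy)

theorem val_neg_of_pre (hd : 2 ≤ d) (hc : 1 < ‖(c : ℚ_[p])‖) {x : ℚ} (hx : x ∈ Pre d c) :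
    padicValRat p x < 0 := by
  have h0 := ne_zero_of_pre hd hc hx
  by_contra h
  rw [not_lt] at h
  have h1 := (norm_le_one_iff (p := p) h0).2 h
  have h2 := norm_pow_eq_of_pre hd hc hx
  have := pow_le_one₀ (n := d) (norm_nonneg _) h1
  linarith

/-- Factorisation of `x ^ n - y ^ n` with integral cofactor. -/
theorem exists_cofactor {x y : ℚ} (hx : ‖(x : ℚ_[p])‖ ≤ 1) (hy : ‖(y : ℚ_[p])‖ ≤ 1) (n : ℕ) :
    ∃ g : ℚ, ‖(g : ℚ_[p])‖ ≤ 1 ∧ x ^ n - y ^ n = (x - y) * g := by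
  induction n with
  | zero => exact ⟨0, by simp, by simp⟩
  | succ n ih =>
    obtain ⟨g, hg, h⟩ := ih
    refine ⟨x ^ n + y * g, ?_, by linear_combination y * h⟩
    push_cast
    refine (Padic.nonarchimedean _ _).trans (max_le ?_ ?_)
    · rw [norm_pow]; exact pow_le_one₀ (norm_nonneg _) hx
    · rw [norm_mul]; exact mul_le_one₀ hy (norm_nonneg _) hg

theorem norm_sub_le_one {x y : ℚ} (hx : ‖(x : ℚ_[p])‖ ≤ 1) (hy : ‖(y : ℚ_[p])‖ ≤ 1) :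
    ‖((x - y : ℚ) : ℚ_[p])‖ ≤ 1 := by
  push_cast
  rw [sub_eq_add_neg]
  refine (Padic.nonarchimedean _ _).trans (max_le hx ?_)
  rwa [norm_neg]

theorem norm_add_le_one {x y : ℚ} (hx : ‖(x : ℚ_[p])‖ ≤ 1) (hy : ‖(y : ℚ_[p])‖ ≤ 1) :
    ‖((x + y : ℚ) : ℚ_[p])‖ ≤ 1 := by
  push_cast
  exact (Padic.nonarchimedean _ _).trans (max_le hx hy)

theorem norm_pow_le_one {x : ℚ} (hx : ‖(x : ℚ_[p])‖ ≤ 1) (n : ℕ) :
    ‖((x ^ n : ℚ) : ℚ_[p])‖ ≤ 1 := by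
  push_cast
  rw [norm_pow]
  exact pow_le_one₀ (norm_nonneg _) hx

/-- `|F x - F y| ≤ |x - y|` for integral `x, y`. -/
theorem norm_F_sub_le {x y : ℚ} (hx : ‖(x : ℚ_[p])‖ ≤ 1) (hy : ‖(y : ℚ_[p])‖ ≤ 1) :
    ‖((F d c x - F d c y : ℚ) : ℚ_[p])‖ ≤ ‖((x - y : ℚ) : ℚ_[p])‖ := by
  obtain ⟨g, hg, h⟩ := exists_cofactor hx hy d
  have : F d c x - F d c y = (x - y) * g := by unfold F; rw [← h]; ring
  rw [this]
  push_cast
  rw [norm_mul]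
  exact mul_le_of_le_one_right (norm_nonneg _) hg

/-- For distinct periodic points at a place where `c` is integral, `|F x - F y| = |x - y|`. -/
theorem norm_F_sub_eq (hd : 2 ≤ d) (hc : ‖(c : ℚ_[p])‖ ≤ 1) {x y : ℚ}
    (hx : x ∈ periodicPts (F d c)) (hy : y ∈ periodicPts (F d c)) :
    ‖((F d c x - F d c y : ℚ) : ℚ_[p])‖ = ‖((x - y : ℚ) : ℚ_[p])‖ := by
  apply le_antisymm
  · exact norm_F_sub_le (norm_le_one_of_pre hd hc (per_mem hx)) (norm_le_one_of_pre hd hc (per_mem hy))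
  · obtain ⟨n, hn, hnx⟩ := hx
    obtain ⟨m, hm, hmy⟩ := hy
    have hx' : x ∈ periodicPts (F d c) := ⟨n, hn, hnx⟩
    have hy' : y ∈ periodicPts (F d c) := ⟨m, hm, hmy⟩
    have h1 : ∀ k, ‖(((F d c)^[k + 1] x - (F d c)^[k + 1] y : ℚ) : ℚ_[p])‖ ≤
        ‖((F d c x - F d c y : ℚ) : ℚ_[p])‖ := by
      intro k
      induction k with
      | zero => exact le_of_eq (by simp)
      | succ k ih =>
        refine le_trans ?_ ih
        rw [iterate_succ_apply' _ (k + 1), iterate_succ_apply' _ (k + 1)]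
        exact norm_F_sub_le (norm_le_one_of_pre hd hc (iter_mem (per_mem hx') _))
          (norm_le_one_of_pre hd hc (iter_mem (per_mem hy') _))
    have h2 := h1 (n * m - 1)
    have h3 : n * m - 1 + 1 = n * m := Nat.sub_add_cancel (Nat.mul_pos hn hm)
    rw [h3] at h2
    have h4 : (F d c)^[n * m] x = x := by
      have := hnx.mul_const m
      exact this
    have h5 : (F d c)^[n * m] y = y := by
      have := hmy.const_mul n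
      exact this
    rwa [h4, h5] at h2

/-- The two forms `x ^ e + y ^ e` and `x ^ (2e) + y ^ (2e)` are units at places where `c` is
integral, for distinct periodic points `x, y`. -/
theorem unit_forms_of_per (hd : 2 ≤ d) (hc : ‖(c : ℚ_[p])‖ ≤ 1) {x y : ℚ}
    (hx : x ∈ periodicPts (F d c)) (hy : y ∈ periodicPts (F d c)) (hxy : x ≠ y)
    {e m : ℕ} (hem : d = 4 * e * m) :
    ‖((x ^ e + y ^ e : ℚ) : ℚ_[p])‖ = 1 ∧ ‖((x ^ (2 * e) + y ^ (2 * e) : ℚ) : ℚ_[p])‖ = 1 := by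
  have hx1 := norm_le_one_of_pre hd hc (per_mem hx)
  have hy1 := norm_le_one_of_pre hd hc (per_mem hy)
  have h1 := norm_F_sub_eq hd hc hx hy
  obtain ⟨g1, hg1, h2⟩ := exists_cofactor hx1 hy1 e
  obtain ⟨g2, hg2, h3⟩ := exists_cofactor (norm_pow_le_one hx1 (4 * e)) (norm_pow_le_one hy1 (4 * e)) m
  have h4 : F d c x - F d c y =
      (x - y) * g1 * (x ^ e + y ^ e) * (x ^ (2 * e) + y ^ (2 * e)) * g2 := by
    have : F d c x - F d c y = (x ^ (4 * e)) ^ m - (y ^ (4 * e)) ^ m := by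
      unfold F
      rw [← pow_mul, ← pow_mul, ← hem]
      ring
    rw [this, h3, ← h2]
    ring
  rw [h4] at h1
  push_cast at h1
  rw [norm_mul, norm_mul, norm_mul, norm_mul] at h1
  have hne : ‖((x : ℚ_[p]) - (y : ℚ_[p]))‖ ≠ 0 := by
    rw [norm_ne_zero_iff, sub_ne_zero]
    exact_mod_cast hxy
  have ha : ‖((x ^ e + y ^ e : ℚ) : ℚ_[p])‖ ≤ 1 :=
    norm_add_le_one (norm_pow_le_one hx1 e) (norm_pow_le_one hy1 e)
  have hb : ‖((x ^ (2 * e) + y ^ (2 * e) : ℚ) : ℚ_[p])‖ ≤ 1 :=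
    norm_add_le_one (norm_pow_le_one hx1 _) (norm_pow_le_one hy1 _)
  push_cast at ha hb ⊢
  have h5 : ‖(g1 : ℚ_[p])‖ * ‖(x : ℚ_[p]) ^ e + (y : ℚ_[p]) ^ e‖ *
      ‖(x : ℚ_[p]) ^ (2 * e) + (y : ℚ_[p]) ^ (2 * e)‖ * ‖(g2 : ℚ_[p])‖ = 1 := by
    apply mul_left_cancel₀ hne
    linear_combination h1
  have n0 := norm_nonneg (g1 : ℚ_[p])
  have n1 := norm_nonneg (g2 : ℚ_[p])
  have n2 := norm_nonneg ((x : ℚ_[p]) ^ e + (y : ℚ_[p]) ^ e)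
  have n3 := norm_nonneg ((x : ℚ_[p]) ^ (2 * e) + (y : ℚ_[p]) ^ (2 * e))
  have key : ∀ a b : ℝ, 0 ≤ a → a ≤ 1 → 0 ≤ b → b ≤ 1 → a * b = 1 → a = 1 ∧ b = 1 := by
    intro a b ha0 ha1 hb0 hb1 hab
    constructor <;> nlinarith
  obtain ⟨h6, -⟩ := key _ _ (by positivity) (mul_le_one₀ (mul_le_one₀ hg1 n2 ha) n3 hb) n1 hg2 h5
  obtain ⟨h7, h8⟩ := key _ _ (by positivity) (mul_le_one₀ hg1 n2 ha) n3 hb h6
  obtain ⟨-, h9⟩ := key _ _ n0 hg1 n2 ha h7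
  exact ⟨h9, h8⟩

/-- If `|x ^ d - y ^ d| = 1` with `x, y` integral, then all the forms are units. -/
theorem unit_forms_of_unit {x y : ℚ} (hx : ‖(x : ℚ_[p])‖ ≤ 1) (hy : ‖(y : ℚ_[p])‖ ≤ 1)
    (h : ‖((x ^ d - y ^ d : ℚ) : ℚ_[p])‖ = 1) {e m : ℕ} (hem : d = 4 * e * m) :
    ‖((x ^ e - y ^ e : ℚ) : ℚ_[p])‖ = 1 ∧ ‖((x ^ e + y ^ e : ℚ) : ℚ_[p])‖ = 1 ∧
      ‖((x ^ (2 * e) + y ^ (2 * e) : ℚ) : ℚ_[p])‖ = 1 := by
  obtain ⟨g2, hg2, h3⟩ := exists_cofactor (norm_pow_le_one hx (4 * e)) (norm_pow_le_one hy (4 * e)) m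
  have h4 : x ^ d - y ^ d =
      (x ^ e - y ^ e) * (x ^ e + y ^ e) * (x ^ (2 * e) + y ^ (2 * e)) * g2 := by
    have : x ^ d - y ^ d = (x ^ (4 * e)) ^ m - (y ^ (4 * e)) ^ m := by
      rw [← pow_mul, ← pow_mul, ← hem]
    rw [this, h3]
    ring
  rw [h4] at h
  have hs : ‖((x ^ e - y ^ e : ℚ) : ℚ_[p])‖ ≤ 1 :=
    norm_sub_le_one (norm_pow_le_one hx e) (norm_pow_le_one hy e)
  have ha : ‖((x ^ e + y ^ e : ℚ) : ℚ_[p])‖ ≤ 1 :=
    norm_add_le_one (norm_pow_le_one hx e) (norm_pow_le_one hy e)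
  have hb : ‖((x ^ (2 * e) + y ^ (2 * e) : ℚ) : ℚ_[p])‖ ≤ 1 :=
    norm_add_le_one (norm_pow_le_one hx _) (norm_pow_le_one hy _)
  push_cast at h ha hb hs ⊢
  rw [norm_mul, norm_mul, norm_mul] at h
  have n0 := norm_nonneg ((x : ℚ_[p]) ^ e - (y : ℚ_[p]) ^ e)
  have n1 := norm_nonneg (g2 : ℚ_[p])
  have n2 := norm_nonneg ((x : ℚ_[p]) ^ e + (y : ℚ_[p]) ^ e)
  have n3 := norm_nonneg ((x : ℚ_[p]) ^ (2 * e) + (y : ℚ_[p]) ^ (2 * e))
  have key : ∀ a b : ℝ, 0 ≤ a → a ≤ 1 → 0 ≤ b → b ≤ 1 → a * b = 1 → a = 1 ∧ b = 1 := by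
    intro a b ha0 ha1 hb0 hb1 hab
    constructor <;> nlinarith
  obtain ⟨h6, -⟩ := key _ _ (by positivity) (mul_le_one₀ (mul_le_one₀ hs n2 ha) n3 hb) n1 hg2 h
  obtain ⟨h7, h8⟩ := key _ _ (by positivity) (mul_le_one₀ hs n2 ha) n3 hb h6
  obtain ⟨h9, h10⟩ := key _ _ n0 hs n2 ha h7
  exact ⟨h9, h10, h8⟩

end Local

end Pool.Agent.MP90787a.Uni
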