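import Mathlib
import Pool.Agent.Lib.MP_90787a_nt.Uni.Dyn

/-!
# Valuations modulo `3` at the places where `c` is not integral
-/

namespace Pool.Agent.MP90787a.Uni

open Function

variable {d : ℕ} {c : ℚ}

theorem one_lt_norm_iff {p : ℕ} [hp : Fact p.Prime] {x : ℚ} :
    1 < ‖(x : ℚ_[p])‖ ↔ padicValRat p x < 0 := by
  rcases eq_or_ne x 0 with rfl | hx
  · simp
  · have := (norm_le_one_iff (p := p) hx).not
    rw [not_le, not_le] at this
    exact this

/-- The excess valuation of `x - y` over `y`. -/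
def dl (p : ℕ) (x y : ℚ) : ℤ := padicValRat p (x - y) - padicValRat p y

section

variable {p : ℕ} [hp : Fact p.Prime]

theorem dl_nonneg (hd : 2 ≤ d) (hc : 1 < ‖(c : ℚ_[p])‖) {x y : ℚ} (hx : x ∈ Pre d c)
    (hy : y ∈ Pre d c) (hxy : x ≠ y) : 0 ≤ dl p x y := by
  have h1 := val_eq_of_pre hd hc hx hy
  have := padicValRat.le_padicValRat_add_of_le (p := p) (q := -y) (r := x)
    (by rw [neg_add_eq_sub]; exact sub_ne_zero.2 hxy) (by rw [padicValRat.neg, h1])
  rw [padicValRat.neg, neg_add_eq_sub] at this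
  unfold dl
  omega

theorem dl_F (hp2 : p ≠ 2) (hd : 2 ≤ d) (hc : 1 < ‖(c : ℚ_[p])‖) {x y : ℚ}
    (hy : y ∈ Pre d c) (hxy : x ≠ y) (h : 0 < dl p x y) :
    F d c x ≠ F d c y ∧ dl p (F d c x) (F d c y) =
      dl p x y + (d - 1) * padicValRat p y + padicValNat p d := by
  have hy0 := ne_zero_of_pre hd hc hy
  obtain ⟨h1, h2⟩ := lte hp2 hy0 hxy (by unfold dl at h; omega) (show d ≠ 0 by omega)
  have h3 : F d c x - F d c y = x ^ d - y ^ d := by unfold F; ring
  refine ⟨?_, ?_⟩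
  · intro h4
    apply h1
    have : x ^ d - y ^ d = 0 := by rw [← h3, h4, sub_self]
    linarith
  · unfold dl
    rw [h3, h2, val_eq_of_pre hd hc (F_mem hy) hy]
    ring

theorem dl_zero (hp2 : p ≠ 2) (hd : 2 ≤ d) (hd3 : d % 3 = 1) (hc : 1 < ‖(c : ℚ_[p])‖)
    (hpd : ¬ p ∣ d) : ∀ (n : ℕ) {x y : ℚ}, x ∈ Pre d c → y ∈ Pre d c → x ≠ y →
    dl p x y ≤ n → (3 : ℤ) ∣ dl p x y := by
  intro n
  induction n with
  | zero =>
    intro x y hx hy hxy h
    have := dl_nonneg hd hc hx hy hxy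
    have h0 : dl p x y = 0 := by push_cast at h; omega
    rw [h0]
    exact dvd_zero _
  | succ n ih =>
    intro x y hx hy hxy h
    have h0 := dl_nonneg hd hc hx hy hxy
    rcases h0.eq_or_lt with h1 | h1
    · rw [← h1]; exact dvd_zero _
    · obtain ⟨h2, h3⟩ := dl_F hp2 hd hc hy hxy h1
      have hv := val_neg_of_pre hd hc hy
      rw [padicValNat.eq_zero_of_not_dvd hpd] at h3
      have hd1 : (1 : ℤ) ≤ (d : ℤ) - 1 := by omega
      have h4 : ((d : ℤ) - 1) * padicValRat p y ≤ -1 := by nlinarith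
      have h5 : dl p (F d c x) (F d c y) ≤ n := by
        rw [h3]; push_cast at h ⊢; omega
      have h6 := ih (F_mem hx) (F_mem hy) h2 h5
      obtain ⟨k, hk⟩ : (3 : ℤ) ∣ (d : ℤ) - 1 := by omega
      rw [h3, hk] at h6
      have h7 : (3 : ℤ) ∣ 3 * k * padicValRat p y := ⟨k * padicValRat p y, by ring⟩
      have h8 := dvd_sub h6 h7
      have h9 : dl p x y + 3 * k * padicValRat p y + ((0 : ℕ) : ℤ) - 3 * k * padicValRat p y =
          dl p x y := by push_cast; ring
      rwa [h9] at h8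

theorem pow_ne_of_ne {x y : ℚ} (h1 : x ≠ y) (h2 : x ≠ -y) {n : ℕ} (hn : n ≠ 0) :
    x ^ n ≠ y ^ n := by
  intro h
  rcases pow_eq_pow_iff_cases.1 h with h | h | h
  · exact hn h
  · exact h1 h
  · exact h2 h.1

theorem forms_bad (hp2 : p ≠ 2) (hd : 2 ≤ d) (hd3 : d % 3 = 1) (hc : 1 < ‖(c : ℚ_[p])‖) {x y : ℚ}
    (hx : x ∈ Pre d c) (hy : y ∈ Pre d c) (hxy : x ≠ y) (hxy' : x ≠ -y) {e m : ℕ}
    (hem : d = 4 * e * m) (h : (3 : ℤ) ∣ dl p (F d c x) (F d c y) - padicValNat p m) :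
    (3 : ℤ) ∣ padicValRat p (x ^ e - y ^ e) - e * padicValRat p y ∧
    (3 : ℤ) ∣ padicValRat p (x ^ e + y ^ e) - e * padicValRat p y ∧
    (3 : ℤ) ∣ padicValRat p (x ^ (2 * e) + y ^ (2 * e)) - 2 * (e * padicValRat p y) := by
  have he0 : e ≠ 0 := by rintro rfl; omega
  have hm0 : m ≠ 0 := by rintro rfl; omega
  have hx0 := ne_zero_of_pre hd hc hx
  have hy0 := ne_zero_of_pre hd hc hy
  have hvv := val_eq_of_pre hd hc hx hy
  have hne : x ^ (4 * e) ≠ y ^ (4 * e) :=
    pow_ne_of_ne hxy hxy' (by omega)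
  have hpx : (x ^ e) ^ 4 = x ^ (4 * e) := by rw [← pow_mul, mul_comm]
  have hpy : (y ^ e) ^ 4 = y ^ (4 * e) := by rw [← pow_mul, mul_comm]
  have hvx : padicValRat p (x ^ e) = e * padicValRat p y := by rw [padicValRat.pow, hvv]
  have hvy : padicValRat p (y ^ e) = e * padicValRat p y := padicValRat.pow _
  have hX : x ^ e ≠ y ^ e := by
    intro h
    exact hne (by rw [← hpx, ← hpy, h])
  have hX' : x ^ e ≠ -y ^ e := by
    intro h
    exact hne (by rw [← hpx, ← hpy, h]; ring)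
  have key : (3 : ℤ) ∣ padicValRat p ((x ^ e) ^ 4 - (y ^ e) ^ 4) - 4 * padicValRat p (y ^ e) := by
    rw [hpx, hpy, hvy]
    have hY4 : padicValRat p (y ^ (4 * e)) = 4 * (e * padicValRat p y) := by
      rw [padicValRat.pow]; push_cast; ring
    have hX4 : padicValRat p (x ^ (4 * e)) = 4 * (e * padicValRat p y) := by
      rw [padicValRat.pow, hvv]; push_cast; ring
    have hle : padicValRat p (y ^ (4 * e)) ≤ padicValRat p (x ^ (4 * e) - y ^ (4 * e)) := by
      have := padicValRat.le_padicValRat_add_of_le (p := p) (q := -y ^ (4 * e)) (r := x ^ (4 * e))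
        (by rw [neg_add_eq_sub]; exact sub_ne_zero.2 hne) (by rw [padicValRat.neg, hX4, hY4])
      rwa [padicValRat.neg, neg_add_eq_sub] at this
    rcases hle.lt_or_eq with hlt | heq
    · obtain ⟨-, h2⟩ := lte hp2 (pow_ne_zero _ hy0) hne hlt hm0
      rw [← pow_mul, ← pow_mul, ← hem] at h2
      have h3 : F d c x - F d c y = x ^ d - y ^ d := by unfold F; ring
      unfold dl at h
      rw [h3, h2, val_eq_of_pre hd hc (F_mem hy) hy, hY4] at h
      obtain ⟨k, hk⟩ : (3 : ℤ) ∣ (d : ℤ) - 1 := by omega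
      obtain ⟨t, ht⟩ := h
      refine ⟨t - k * padicValRat p y, ?_⟩
      have hdd : (d : ℤ) = 4 * e * m := by exact_mod_cast hem
      have h5 : (3 : ℤ) * k * padicValRat p y = (d - 1) * padicValRat p y := by rw [hk]
      rw [hdd] at h5
      linear_combination ht + h5
    · rw [← heq, hY4, sub_self]
      exact dvd_zero _
  have := split hp2 (pow_ne_zero e hx0) (pow_ne_zero e hy0) (by rw [hvx, hvy]) hX hX' key
  rw [hvy, ← pow_mul, ← pow_mul, mul_comm e 2] at this
  exact this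

end

/-- The obstruction: a prime `q` dividing `d` exactly once at which the excess valuation of
`F x - F y` is `2` modulo `3`. -/
def Bad (d : ℕ) (c x y : ℚ) : Prop :=
  ∃ q : ℕ, q.Prime ∧ q ≠ 2 ∧ padicValNat q d = 1 ∧ padicValRat q c < 0 ∧
    dl q (F d c x) (F d c y) % 3 = 2

theorem bad_neg (hd : Even d) {x y : ℚ} : Bad d c x (-y) ↔ Bad d c x y := by
  unfold Bad
  rw [F_neg hd]

theorem bad_step (hd : 2 ≤ d)
    (hw : ∀ q q' : ℕ, q.Prime → q'.Prime → q ≠ 2 → q' ≠ 2 → padicValNat q d = 1 →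
      padicValNat q' d = 1 → q = q') (hd3 : d % 3 = 1) {x y : ℚ} (hx : x ∈ Pre d c)
    (hy : y ∈ Pre d c) (hne : F d c x ≠ F d c y) (h : Bad d c x y) :
    ¬ Bad d c (F d c x) (F d c y) := by
  rintro ⟨q', hq', hq'2, hq'd, -, hq'3⟩
  obtain ⟨q, hq, hq2, hqd, hqc, hq3⟩ := h
  obtain rfl := hw q q' hq hq' hq2 hq'2 hqd hq'd
  have := Fact.mk hq
  have hc : 1 < ‖(c : ℚ_[q])‖ := one_lt_norm_iff.2 hqc
  have h0 := dl_nonneg hd hc (F_mem hx) (F_mem hy) hne
  have hpos : 0 < dl q (F d c x) (F d c y) := by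
    rcases h0.eq_or_lt with h | h
    · rw [← h] at hq3; norm_num at hq3
    · exact h
  obtain ⟨-, h1⟩ := dl_F hq2 hd hc (F_mem hy) hne hpos
  rw [h1, hqd] at hq'3
  obtain ⟨k, hk⟩ : (3 : ℤ) ∣ (d : ℤ) - 1 := by omega
  rw [hk] at hq'3
  push_cast at hq'3
  have h2 : 3 * k * padicValRat q (F d c y) = 3 * (k * padicValRat q (F d c y)) := by ring
  rw [h2] at hq'3
  omega

/-- For a pair which is not bad one can choose the exponent `e`. -/
theorem exists_exponent (h4 : 4 ∣ d) (hd3 : d % 3 = 1) {x y : ℚ} (hx : x ∈ Pre d c)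
    (hy : y ∈ Pre d c) (hne : F d c x ≠ F d c y) (hb : ¬ Bad d c x y) :
    ∃ e m : ℕ, d = 4 * e * m ∧ ∀ p : ℕ, p.Prime → p ≠ 2 → padicValRat p c < 0 →
      (3 : ℤ) ∣ dl p (F d c x) (F d c y) - padicValNat p m := by
  have hd0 : d ≠ 0 := by rintro rfl; omega
  have hd : 2 ≤ d := by omega
  classical
  let g : ℕ → ℕ := fun p =>
    if p ∈ d.primeFactors ∧ p ≠ 2 ∧ padicValRat p c < 0 then
      (dl p (F d c x) (F d c y) % 3).toNat else 0
  let f : ℕ →₀ ℕ := Finsupp.onFinset d.primeFactors g (by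
    intro p hp
    by_contra h
    apply hp
    show (if p ∈ d.primeFactors ∧ p ≠ 2 ∧ padicValRat p c < 0 then
      (dl p (F d c x) (F d c y) % 3).toNat else 0) = 0
    rw [if_neg (fun h' => h h'.1)])
  have hfg : ∀ p, f p = g p := fun p => rfl
  have hsupp : ∀ p ∈ f.support, p.Prime := by
    intro p hp
    have : p ∈ d.primeFactors := Finsupp.support_onFinset_subset hp
    exact Nat.prime_of_mem_primeFactors this
  obtain ⟨m, hm⟩ : ∃ m, m = f.prod (· ^ ·) := ⟨_, rfl⟩
  have hfac : m.factorization = f := by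
    rw [hm]
    exact Nat.prod_pow_factorization_eq_self hsupp
  have hm0 : m ≠ 0 := by
    rw [hm]
    rw [Finsupp.prod, Finset.prod_ne_zero_iff]
    intro p hp
    exact pow_ne_zero _ (hsupp p hp).ne_zero
  have hval : ∀ p : ℕ, p.Prime → padicValNat p m = g p := by
    intro p hp
    rw [← Nat.factorization_def m hp, hfac, hfg]
  have hle : ∀ p, g p ≤ d.factorization p := by
    intro p
    show (if p ∈ d.primeFactors ∧ p ≠ 2 ∧ padicValRat p c < 0 then
      (dl p (F d c x) (F d c y) % 3).toNat else 0) ≤ d.factorization p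
    split_ifs with h
    · have hp := Nat.prime_of_mem_primeFactors h.1
      have h1 : 1 ≤ d.factorization p :=
        hp.factorization_pos_of_dvd hd0 (Nat.dvd_of_mem_primeFactors h.1)
      rcases Nat.lt_or_ge 1 (d.factorization p) with h2 | h2
      · have h3 : dl p (F d c x) (F d c y) % 3 < 3 := Int.emod_lt_of_pos _ (by norm_num)
        omega
      · have h3 : d.factorization p = 1 := by omega
        have h4 : dl p (F d c x) (F d c y) % 3 ≠ 2 := by
          intro h5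
          exact hb ⟨p, hp, h.2.1, by rw [← Nat.factorization_def d hp, h3], h.2.2, h5⟩
        have h5 : dl p (F d c x) (F d c y) % 3 < 3 := Int.emod_lt_of_pos _ (by norm_num)
        omega
    · exact Nat.zero_le _
  have hmd : m ∣ d := by
    rw [← Nat.factorization_le_iff_dvd hm0 hd0, hfac]
    intro p
    exact hle p
  have hm2 : ¬ 2 ∣ m := by
    intro h
    have h1 : 0 < m.factorization 2 := Nat.prime_two.factorization_pos_of_dvd hm0 h
    rw [hfac, hfg] at h1
    have h2 : g 2 = 0 := by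
      show (if 2 ∈ d.primeFactors ∧ 2 ≠ 2 ∧ padicValRat 2 c < 0 then
        (dl 2 (F d c x) (F d c y) % 3).toNat else 0) = 0
      rw [if_neg (fun h => h.2.1 rfl)]
    omega
  have hcop : Nat.Coprime 4 m := by
    have h1 : Nat.Coprime 2 m := (Nat.Prime.coprime_iff_not_dvd Nat.prime_two).2 hm2
    have := h1.pow_left 2
    norm_num at this
    exact this
  obtain ⟨e, he⟩ := hcop.mul_dvd_of_dvd_of_dvd h4 hmd
  refine ⟨e, m, by rw [he]; ring, ?_⟩
  intro p hp hp2 hpc
  have := Fact.mk hp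
  have hc : 1 < ‖(c : ℚ_[p])‖ := one_lt_norm_iff.2 hpc
  rw [hval p hp]
  by_cases hpd : p ∣ d
  · have h1 : g p = (dl p (F d c x) (F d c y) % 3).toNat := by
      show (if p ∈ d.primeFactors ∧ p ≠ 2 ∧ padicValRat p c < 0 then
        (dl p (F d c x) (F d c y) % 3).toNat else 0) = _
      rw [if_pos ⟨Nat.mem_primeFactors.2 ⟨hp, hpd, hd0⟩, hp2, hpc⟩]
    rw [h1]
    have h2 : 0 ≤ dl p (F d c x) (F d c y) % 3 := Int.emod_nonneg _ (by norm_num)
    omega
  · have h1 : g p = 0 := by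
      show (if p ∈ d.primeFactors ∧ p ≠ 2 ∧ padicValRat p c < 0 then
        (dl p (F d c x) (F d c y) % 3).toNat else 0) = _
      rw [if_neg (fun h => hpd (Nat.dvd_of_mem_primeFactors h.1))]
    rw [h1]
    have h2 := dl_nonneg hd hc (F_mem hx) (F_mem hy) hne
    have h3 := dl_zero hp2 hd hd3 hc hpd (dl p (F d c x) (F d c y)).toNat (F_mem hx) (F_mem hy) hne
      (by omega)
    push_cast
    rw [sub_zero]
    exact h3

end Pool.Agent.MP90787a.Uni
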