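import Mathlib
import Pool.Agent.Lib.MP_90787a_nt.Uni.Cube
import Pool.Agent.Lib.MP_90787a_nt.Uni.Delta

/-!
# The two final arguments on the curve `y² = x³ - 1`
-/

namespace Pool.Agent.MP90787a.Uni

open Function

theorem val_two_odd {p : ℕ} [hp : Fact p.Prime] (hp2 : p ≠ 2) : padicValRat p (2 : ℚ) = 0 := by
  have h : padicValRat p ((2 : ℕ) : ℚ) = padicValNat p 2 := padicValRat.of_nat
  rw [Nat.cast_ofNat] at h
  rw [h]
  have : ¬ p ∣ 2 := by
    intro hd
    exact hp2 ((Nat.prime_dvd_prime_iff_eq hp.out Nat.prime_two).1 hd)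
  rw [padicValNat.eq_zero_of_not_dvd this]
  rfl

instance fact2 : Fact (Nat.Prime 2) := ⟨Nat.prime_two⟩

theorem val_two : padicValRat 2 (2 : ℚ) = 1 := by
  have h : padicValRat 2 ((2 : ℕ) : ℚ) = 1 := padicValRat.self (by norm_num)
  rwa [Nat.cast_ofNat] at h

/-- `X ≡ Y` modulo `4`, and all odd valuations of `(X² + Y²) / (X + Y)²` divisible by `3`. -/
theorem fin2 {X Y : ℚ} (hX : X ≠ 0) (hY : Y ≠ 0) (hXY : X + Y ≠ 0)
    (h2 : X ≠ Y → padicValRat 2 Y + 2 ≤ padicValRat 2 (X - Y))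
    (h : ∀ p : ℕ, p.Prime → p ≠ 2 →
      (3 : ℤ) ∣ padicValRat p (X ^ 2 + Y ^ 2) - 2 * padicValRat p (X + Y)) : X = Y := by
  by_contra hne
  have hv := h2 hne
  have hsub : X - Y ≠ 0 := sub_ne_zero.2 hne
  have hsq : X ^ 2 + Y ^ 2 ≠ 0 := by positivity
  have hpow : (X + Y) ^ 2 ≠ 0 := pow_ne_zero 2 hXY
  have v2Y : padicValRat 2 (2 * Y) = padicValRat 2 Y + 1 := by
    rw [padicValRat.mul two_ne_zero hY, val_two]; ring
  have v2Y2 : padicValRat 2 (2 * Y ^ 2) = 2 * padicValRat 2 Y + 1 := by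
    rw [padicValRat.mul two_ne_zero (pow_ne_zero 2 hY), val_two, padicValRat.pow]
    push_cast
    ring
  have vs : padicValRat 2 (X + Y) = padicValRat 2 Y + 1 := by
    have := (val_add_of_lt (p := 2) (x := 2 * Y) (y := X - Y) (mul_ne_zero two_ne_zero hY)
      (Or.inr (by rw [v2Y]; omega))).2
    rwa [v2Y, show 2 * Y + (X - Y) = X + Y by ring] at this
  have vq : padicValRat 2 (X ^ 2 + Y ^ 2) = 2 * padicValRat 2 Y + 1 := by
    have := (val_add_of_lt (p := 2) (x := 2 * Y ^ 2) (y := (X - Y) * (X + Y))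
      (mul_ne_zero two_ne_zero (pow_ne_zero 2 hY))
      (Or.inr (by rw [v2Y2, padicValRat.mul hsub hXY, vs]; omega))).2
    rwa [v2Y2, show 2 * Y ^ 2 + (X - Y) * (X + Y) = X ^ 2 + Y ^ 2 by ring] at this
  obtain ⟨ρ, hρ⟩ := rat_cube (r := 2 * (X ^ 2 + Y ^ 2) / (X + Y) ^ 2)
    (div_ne_zero (mul_ne_zero two_ne_zero hsq) hpow) (by
      intro p hp
      have := Fact.mk hp
      rw [padicValRat.div (mul_ne_zero two_ne_zero hsq) hpow, padicValRat.mul two_ne_zero hsq,
        padicValRat.pow]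
      by_cases hp2 : p = 2
      · subst hp2
        rw [val_two, vs, vq]
        refine ⟨0, ?_⟩
        push_cast
        ring
      · rw [val_two_odd hp2, zero_add]
        have := h p hp hp2
        push_cast
        exact this)
  have hη : ((X - Y) / (X + Y)) ^ 2 = ρ ^ 3 - 1 := by
    rw [← hρ]
    field_simp
    ring
  have := rat_case hη (fun _ => by
    rw [padicValRat.div hsub hXY, vs]
    omega)
  rw [div_eq_zero_iff] at this
  rcases this with h | h
  · exact hsub h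
  · exact hXY h

/-- Different `2`-adic valuations, and all odd valuations of `(X² - Y²) / (X² + Y²)` divisible
by `3`. -/
theorem fin1 {X Y : ℚ} (hX : X ≠ 0) (hY : Y ≠ 0) (h2 : padicValRat 2 X ≠ padicValRat 2 Y)
    (h : ∀ p : ℕ, p.Prime → p ≠ 2 → (3 : ℤ) ∣ padicValRat p (X ^ 2 + Y ^ 2) -
      (padicValRat p (X - Y) + padicValRat p (X + Y))) : False := by
  wlog hlt : padicValRat 2 X < padicValRat 2 Y with H
  · refine H hY hX h2.symm ?_ (by omega)
    intro p hp hp2
    have := h p hp hp2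
    rw [add_comm (Y ^ 2), add_comm Y, ← neg_sub X Y, padicValRat.neg]
    exact this
  have hsub : X - Y ≠ 0 := by
    intro h
    apply h2
    rw [sub_eq_zero.1 h]
  have hadd : X + Y ≠ 0 := by
    intro h
    apply h2
    rw [show X = -Y by linarith, padicValRat.neg]
  have hsq : X ^ 2 + Y ^ 2 ≠ 0 := by positivity
  have hdif : X ^ 2 - Y ^ 2 ≠ 0 := by
    rw [show X ^ 2 - Y ^ 2 = (X - Y) * (X + Y) by ring]
    exact mul_ne_zero hsub hadd
  have hlt2 : padicValRat 2 (X ^ 2) < padicValRat 2 (Y ^ 2) := by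
    rw [padicValRat.pow, padicValRat.pow]
    push_cast
    omega
  have v1 : padicValRat 2 (X ^ 2 + Y ^ 2) = padicValRat 2 (X ^ 2) :=
    (val_add_of_lt (pow_ne_zero 2 hX) (Or.inr hlt2)).2
  have v2 : padicValRat 2 (X ^ 2 - Y ^ 2) = padicValRat 2 (X ^ 2) := by
    have := (val_add_of_lt (p := 2) (x := X ^ 2) (y := -Y ^ 2) (pow_ne_zero 2 hX)
      (Or.inr (by rw [padicValRat.neg]; exact hlt2))).2
    rwa [← sub_eq_add_neg] at this
  obtain ⟨τ, hτ⟩ := rat_cube (r := (X ^ 2 - Y ^ 2) / (X ^ 2 + Y ^ 2)) (div_ne_zero hdif hsq) (by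
    intro p hp
    have := Fact.mk hp
    rw [padicValRat.div hdif hsq]
    by_cases hp2 : p = 2
    · subst hp2
      rw [v1, v2, sub_self]
      exact dvd_zero _
    · have h3 := h p hp hp2
      rw [show X ^ 2 - Y ^ 2 = (X - Y) * (X + Y) by ring, padicValRat.mul hsub hadd]
      obtain ⟨t, ht⟩ := h3
      exact ⟨-t, by linear_combination -ht⟩)
  have hτ0 : τ ≠ 0 := by
    rintro rfl
    rw [zero_pow (by norm_num)] at hτ
    exact div_ne_zero hdif hsq hτ
  have hη : (2 * X * Y / (X ^ 2 - Y ^ 2)) ^ 2 = ((1 / τ) ^ 2) ^ 3 - 1 := by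
    have h6 : ((1 / τ) ^ 2) ^ 3 = ((X ^ 2 + Y ^ 2) / (X ^ 2 - Y ^ 2)) ^ 2 := by
      have : ((1 / τ) ^ 2) ^ 3 = (1 / τ ^ 3) ^ 2 := by
        field_simp
      rw [this, ← hτ]
      field_simp
    rw [h6]
    field_simp
    ring
  have := rat_case hη (fun _ => by
    rw [padicValRat.div (mul_ne_zero (mul_ne_zero two_ne_zero hX) hY) hdif,
      padicValRat.mul (mul_ne_zero two_ne_zero hX) hY, padicValRat.mul two_ne_zero hX, val_two, v2,
      padicValRat.pow]
    push_cast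
    omega)
  rw [div_eq_zero_iff] at this
  rcases this with h | h
  · exact mul_ne_zero (mul_ne_zero two_ne_zero hX) hY h
  · exact hdif h

/-- A `2`-adic unit is `± 1` modulo `4`. -/
theorem sign_or {u : ℚ} (hu : u ≠ 0) (hv : padicValRat 2 u = 0) :
    ‖((u - 1 : ℚ) : ℚ_[2])‖ ≤ 1 / 4 ∨ ‖((u + 1 : ℚ) : ℚ_[2])‖ ≤ 1 / 4 := by
  have hnum0 : u.num.natAbs ≠ 0 := Int.natAbs_ne_zero.2 (Rat.num_ne_zero.2 hu)
  have hB : (u.den : ℚ) ≠ 0 := by exact_mod_cast u.den_nz
  have hu' : u = u.num / u.den := (Rat.num_div_den u).symm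
  rw [padicValRat_def, padicValInt] at hv
  have hodd : u.num % 2 = 1 ∧ u.den % 2 = 1 := by
    by_cases hd : 2 ∣ u.den
    · have h2 : ¬ 2 ∣ u.num.natAbs := fun h3 =>
        absurd (Nat.eq_one_of_dvd_coprimes u.reduced h3 hd) (by norm_num)
      rw [padicValNat.eq_zero_of_not_dvd h2] at hv
      have := one_le_padicValNat_of_dvd u.den_nz hd
      omega
    · rw [padicValNat.eq_zero_of_not_dvd hd] at hv
      have h2 : ¬ 2 ∣ u.num.natAbs := by
        intro h3
        have := one_le_padicValNat_of_dvd hnum0 h3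
        omega
      omega
  have hBn : ‖(u.den : ℚ_[2])‖ = 1 := by
    rw [Padic.norm_natCast_eq_one_iff]
    rw [Nat.coprime_comm, Nat.coprime_two_right]
    rw [Nat.odd_iff]
    exact hodd.2
  have key : ∀ z : ℤ, (4 : ℤ) ∣ z → ‖((z : ℚ) / (u.den : ℚ) : ℚ_[2])‖ ≤ 1 / 4 := by
    intro z hz
    push_cast
    rw [norm_div, hBn, div_one]
    have := (Padic.norm_int_le_pow_iff_dvd (p := 2) z 2).2 (by norm_num; exact hz)
    refine this.trans (le_of_eq ?_)
    norm_num
  have h4 : (4 : ℤ) ∣ u.num - u.den ∨ (4 : ℤ) ∣ u.num + u.den := by omega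
  rcases h4 with h4 | h4
  · left
    have h5 : u - 1 = ((u.num - u.den : ℤ) : ℚ) / (u.den : ℚ) := by
      conv_lhs => rw [hu']
      push_cast
      field_simp
    rw [h5]
    have := key _ h4
    push_cast at this ⊢
    exact this
  · right
    have h5 : u + 1 = ((u.num + u.den : ℤ) : ℚ) / (u.den : ℚ) := by
      conv_lhs => rw [hu']
      push_cast
      field_simp
    rw [h5]
    have := key _ h4
    push_cast at this ⊢
    exact this

end Pool.Agent.MP90787a.Uni
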