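import Mathlib
import Pool.Agent.Lib.MP_90787a_nt.Uni.Fin

/-!
# Controlled pairs of preperiodic points
-/

namespace Pool.Agent.MP90787a.Uni

open Function

variable {d : ℕ} {c : ℚ}

theorem F_sub (x y : ℚ) : F d c x - F d c y = x ^ d - y ^ d := by unfold F; ring

theorem F_ne_of_ne {x y : ℚ} (hd : d ≠ 0) (h1 : x ≠ y) (h2 : x ≠ -y) : F d c x ≠ F d c y := by
  intro h
  apply pow_ne_of_ne h1 h2 hd
  have := F_sub (d := d) (c := c) x y
  rw [h, sub_self] at this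
  linarith

/-- `|u ^ e - 1| ≤ 1/4` if `|u - 1| ≤ 1/4` (`2`-adically). -/
theorem near_pow {u : ℚ} (h : ‖((u - 1 : ℚ) : ℚ_[2])‖ ≤ 1 / 4) (e : ℕ) :
    ‖((u ^ e - 1 : ℚ) : ℚ_[2])‖ ≤ 1 / 4 := by
  have h1 : ‖((1 : ℚ) : ℚ_[2])‖ ≤ 1 := by simp
  have hu : ‖(u : ℚ_[2])‖ ≤ 1 := by
    have h2 := Padic.nonarchimedean ((u - 1 : ℚ) : ℚ_[2]) ((1 : ℚ) : ℚ_[2])
    have h3 : ((u - 1 : ℚ) : ℚ_[2]) + ((1 : ℚ) : ℚ_[2]) = (u : ℚ_[2]) := by push_cast; ring
    rw [h3] at h2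
    exact h2.trans (max_le (h.trans (by norm_num)) h1)
  obtain ⟨g, hg, h4⟩ := exists_cofactor hu h1 e
  rw [one_pow] at h4
  rw [h4]
  push_cast at h ⊢
  rw [norm_mul]
  have := norm_nonneg (g : ℚ_[2])
  have := norm_nonneg ((u : ℚ_[2]) - 1)
  nlinarith

/-- The valuation form of `2`-adic closeness. -/
theorem near_val {X Y : ℚ} (hY : Y ≠ 0) (h : ‖((X / Y - 1 : ℚ) : ℚ_[2])‖ ≤ 1 / 4) (hXY : X ≠ Y) :
    padicValRat 2 Y + 2 ≤ padicValRat 2 (X - Y) := by
  have hsub : X - Y ≠ 0 := sub_ne_zero.2 hXY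
  have h1 : X / Y - 1 = (X - Y) / Y := by field_simp
  have h2 : (X - Y) / Y ≠ 0 := div_ne_zero hsub hY
  rw [h1, norm_eq h2, padicValRat.div hsub hY] at h
  have h3 : (1 / 4 : ℝ) = ((2 : ℕ) : ℝ) ^ (-2 : ℤ) := by norm_num
  rw [h3, zpow_le_zpow_iff_right₀ (by norm_num)] at h
  omega

/-- At all good odd places either `x ^ d - y ^ d` is a unit, or `|x| ≠ |y|`. -/
def Ctrl (d : ℕ) (c x y : ℚ) : Prop :=
  ∀ p : ℕ, ∀ _ : Fact p.Prime, p ≠ 2 → ‖(c : ℚ_[p])‖ ≤ 1 →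
    ‖((x ^ d - y ^ d : ℚ) : ℚ_[p])‖ = 1 ∨ ‖(x : ℚ_[p])‖ ≠ ‖(y : ℚ_[p])‖

/-- Valuations of the forms at a good odd place for a controlled pair. -/
theorem forms_good {p : ℕ} [hp : Fact p.Prime] (hd : 2 ≤ d) (hc : ‖(c : ℚ_[p])‖ ≤ 1)
    {x y : ℚ} (hx : x ∈ Pre d c) (hy : y ∈ Pre d c) (hx0 : x ≠ 0) (hy0 : y ≠ 0)
    (h : ‖((x ^ d - y ^ d : ℚ) : ℚ_[p])‖ = 1 ∨ ‖(x : ℚ_[p])‖ ≠ ‖(y : ℚ_[p])‖) {e m : ℕ}
    (hem : d = 4 * e * m) :
    (3 : ℤ) ∣ padicValRat p ((x ^ e) ^ 2 + (y ^ e) ^ 2) - 2 * padicValRat p (x ^ e + y ^ e) ∧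
    (3 : ℤ) ∣ padicValRat p ((x ^ e) ^ 2 + (y ^ e) ^ 2) -
      (padicValRat p (x ^ e - y ^ e) + padicValRat p (x ^ e + y ^ e)) := by
  have he0 : e ≠ 0 := by rintro rfl; omega
  rcases h with h | h
  · obtain ⟨h1, h2, h3⟩ := unit_forms_of_unit (norm_le_one_of_pre hd hc hx)
      (norm_le_one_of_pre hd hc hy) h hem
    have key : ∀ z : ℚ, ‖(z : ℚ_[p])‖ = 1 → padicValRat p z = 0 := by
      intro z hz
      have hz0 : z ≠ 0 := by
        rintro rfl
        simp at hz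
      exact (norm_eq_one_iff hz0).1 hz
    rw [key _ h1, key _ h2, ← pow_mul, ← pow_mul, mul_comm e 2, key _ h3]
    constructor <;> simp
  · have hvv : padicValRat p x ≠ padicValRat p y := by
      intro h'
      exact h ((norm_eq_iff hx0 hy0).2 h')
    have hX := pow_ne_zero e hx0
    have hY := pow_ne_zero e hy0
    have hve : padicValRat p (x ^ e) ≠ padicValRat p (y ^ e) := by
      rw [padicValRat.pow, padicValRat.pow]
      intro h'
      have : (e : ℤ) ≠ 0 := by exact_mod_cast he0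
      exact hvv (mul_left_cancel₀ this h')
    have main : ∀ X Y : ℚ, X ≠ 0 → Y ≠ 0 → padicValRat p X < padicValRat p Y →
        padicValRat p (X + Y) = padicValRat p X ∧ padicValRat p (X - Y) = padicValRat p X ∧
        padicValRat p (X ^ 2 + Y ^ 2) = 2 * padicValRat p X := by
      intro X Y hX hY hlt
      refine ⟨(val_add_of_lt hX (Or.inr hlt)).2, ?_, ?_⟩
      · have := (val_add_of_lt (p := p) (x := X) (y := -Y) hX (Or.inr (by rw [padicValRat.neg]; exact hlt))).2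
        rwa [← sub_eq_add_neg] at this
      · have := (val_add_of_lt (p := p) (x := X ^ 2) (y := Y ^ 2) (pow_ne_zero 2 hX)
          (Or.inr (by rw [padicValRat.pow, padicValRat.pow]; push_cast; omega))).2
        rw [this, padicValRat.pow]
        push_cast
        ring
    rcases lt_or_gt_of_ne hve with h1 | h1
    · obtain ⟨e1, e2, e3⟩ := main _ _ hX hY h1
      rw [e1, e2, e3]
      constructor
      · rw [sub_self]; exact dvd_zero _
      · refine ⟨0, by ring⟩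
    · obtain ⟨e1, e2, e3⟩ := main _ _ hY hX h1
      rw [add_comm (x ^ e), add_comm ((x ^ e) ^ 2), e1, e3, ← neg_sub (y ^ e) (x ^ e),
        padicValRat.neg, e2]
      constructor
      · rw [sub_self]; exact dvd_zero _
      · refine ⟨0, by ring⟩

/-- Valuations of the forms at a bad odd place for a pair which is not `Bad`. -/
theorem forms_bad' {p : ℕ} [hp : Fact p.Prime] (hp2 : p ≠ 2) (hd : 2 ≤ d) (hd3 : d % 3 = 1)
    (hc : 1 < ‖(c : ℚ_[p])‖) {x y : ℚ}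
    (hx : x ∈ Pre d c) (hy : y ∈ Pre d c) (hxy : x ≠ y) (hxy' : x ≠ -y) {e m : ℕ}
    (hem : d = 4 * e * m) (h : (3 : ℤ) ∣ dl p (F d c x) (F d c y) - padicValNat p m) :
    (3 : ℤ) ∣ padicValRat p ((x ^ e) ^ 2 + (y ^ e) ^ 2) - 2 * padicValRat p (x ^ e + y ^ e) ∧
    (3 : ℤ) ∣ padicValRat p ((x ^ e) ^ 2 + (y ^ e) ^ 2) -
      (padicValRat p (x ^ e - y ^ e) + padicValRat p (x ^ e + y ^ e)) := by
  obtain ⟨h1, h2, h3⟩ := forms_bad hp2 hd hd3 hc hx hy hxy hxy' hem h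
  rw [← pow_mul, ← pow_mul, mul_comm e 2]
  omega

/-- Case II for distinct periodic points that are close `2`-adically. -/
theorem per_close (h4 : 4 ∣ d) (hd3 : d % 3 = 1) {x y : ℚ} (hx : x ∈ periodicPts (F d c))
    (hy : y ∈ periodicPts (F d c)) (hx0 : x ≠ 0) (hy0 : y ≠ 0) (hxy : x ≠ y)
    (hnear : ‖((x / y - 1 : ℚ) : ℚ_[2])‖ ≤ 1 / 4) : Bad d c x y := by
  by_contra hb
  have hd0 : d ≠ 0 := by rintro rfl; omega
  have hd : 2 ≤ d := by omega
  have hxy' : x ≠ -y := by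
    intro h
    have h1 : F d c x = F d c y := by
      rw [h, F_neg (by obtain ⟨k, hk⟩ := h4; exact ⟨2 * k, by omega⟩)]
    exact hxy (per_inj hx hy h1)
  have hFne := F_ne_of_ne (c := c) hd0 hxy hxy'
  obtain ⟨e, m, hem, hm⟩ := exists_exponent h4 hd3 (per_mem hx) (per_mem hy) hFne hb
  have he0 : e ≠ 0 := by rintro rfl; omega
  have hne4 : x ^ (4 * e) ≠ y ^ (4 * e) := pow_ne_of_ne hxy hxy' (by omega)
  have hX : x ^ e ≠ y ^ e := by
    intro h
    apply hne4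
    rw [mul_comm, pow_mul, pow_mul, h]
  have hXY : x ^ e + y ^ e ≠ 0 := by
    intro h
    apply hne4
    have : x ^ e = -y ^ e := by linarith
    rw [mul_comm, pow_mul, pow_mul, this]
    ring
  apply hX
  refine fin2 (pow_ne_zero e hx0) (pow_ne_zero e hy0) hXY ?_ ?_
  · intro hne
    apply near_val (pow_ne_zero e hy0) _ hne
    rw [← div_pow]
    exact near_pow hnear e
  · intro p hp hp2
    have := Fact.mk hp
    by_cases hc : ‖(c : ℚ_[p])‖ ≤ 1
    · obtain ⟨h1, h2⟩ := unit_forms_of_per hd hc hx hy hxy hem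
      have key : ∀ z : ℚ, ‖(z : ℚ_[p])‖ = 1 → padicValRat p z = 0 := by
        intro z hz
        have hz0 : z ≠ 0 := by
          rintro rfl
          simp at hz
        exact (norm_eq_one_iff hz0).1 hz
      rw [key _ h1, ← pow_mul, ← pow_mul, mul_comm e 2, key _ h2]
      simp
    · rw [not_le] at hc
      exact (forms_bad' hp2 hd hd3 hc (per_mem hx) (per_mem hy) hxy hxy' hem
        (hm p hp hp2 (one_lt_norm_iff.1 hc))).1

/-- Case II for controlled pairs. -/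
theorem ctrl_close (h4 : 4 ∣ d) (hd3 : d % 3 = 1) {x y : ℚ} (hx : x ∈ Pre d c)
    (hy : y ∈ Pre d c) (hx0 : x ≠ 0) (hy0 : y ≠ 0) (hxy : x ≠ y) (hxy' : x ≠ -y)
    (hctrl : Ctrl d c x y)
    (hnear : ‖((x / y - 1 : ℚ) : ℚ_[2])‖ ≤ 1 / 4) : Bad d c x y := by
  by_contra hb
  have hd0 : d ≠ 0 := by rintro rfl; omega
  have hd : 2 ≤ d := by omega
  have hFne := F_ne_of_ne (c := c) hd0 hxy hxy'
  obtain ⟨e, m, hem, hm⟩ := exists_exponent h4 hd3 hx hy hFne hb
  have he0 : e ≠ 0 := by rintro rfl; omega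
  have hne4 : x ^ (4 * e) ≠ y ^ (4 * e) := pow_ne_of_ne hxy hxy' (by omega)
  have hX : x ^ e ≠ y ^ e := by
    intro h
    apply hne4
    rw [mul_comm, pow_mul, pow_mul, h]
  have hXY : x ^ e + y ^ e ≠ 0 := by
    intro h
    apply hne4
    have : x ^ e = -y ^ e := by linarith
    rw [mul_comm, pow_mul, pow_mul, this]
    ring
  apply hX
  refine fin2 (pow_ne_zero e hx0) (pow_ne_zero e hy0) hXY ?_ ?_
  · intro hne
    apply near_val (pow_ne_zero e hy0) _ hne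
    rw [← div_pow]
    exact near_pow hnear e
  · intro p hp hp2
    have := Fact.mk hp
    by_cases hc : ‖(c : ℚ_[p])‖ ≤ 1
    · exact (forms_good hd hc hx hy hx0 hy0 (hctrl p this hp2 hc) hem).1
    · rw [not_le] at hc
      exact (forms_bad' hp2 hd hd3 hc hx hy hxy hxy' hem
        (hm p hp hp2 (one_lt_norm_iff.1 hc))).1

/-- Case I for controlled pairs. -/
theorem ctrl_far (h4 : 4 ∣ d) (hd3 : d % 3 = 1) {x y : ℚ} (hx : x ∈ Pre d c)
    (hy : y ∈ Pre d c) (hx0 : x ≠ 0) (hy0 : y ≠ 0)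
    (hctrl : Ctrl d c x y)
    (hfar : padicValRat 2 x ≠ padicValRat 2 y) : Bad d c x y := by
  by_contra hb
  have hd0 : d ≠ 0 := by rintro rfl; omega
  have hd : 2 ≤ d := by omega
  have hxy : x ≠ y := by
    rintro rfl
    exact hfar rfl
  have hxy' : x ≠ -y := by
    rintro rfl
    exact hfar (padicValRat.neg y)
  have hFne := F_ne_of_ne (c := c) hd0 hxy hxy'
  obtain ⟨e, m, hem, hm⟩ := exists_exponent h4 hd3 hx hy hFne hb
  have he0 : e ≠ 0 := by rintro rfl; omega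
  refine fin1 (pow_ne_zero e hx0) (pow_ne_zero e hy0) ?_ ?_
  · rw [padicValRat.pow, padicValRat.pow]
    intro h
    have : (e : ℤ) ≠ 0 := by exact_mod_cast he0
    exact hfar (mul_left_cancel₀ this h)
  · intro p hp hp2
    have := Fact.mk hp
    by_cases hc : ‖(c : ℚ_[p])‖ ≤ 1
    · exact (forms_good hd hc hx hy hx0 hy0 (hctrl p this hp2 hc) hem).2
    · rw [not_le] at hc
      exact (forms_bad' hp2 hd hd3 hc hx hy hxy hxy' hem
        (hm p hp hp2 (one_lt_norm_iff.1 hc))).2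

/-- A pair of preperiodic points with `F z - F u` a unit at all good places is `Bad`. -/
theorem unit_pair (h4 : 4 ∣ d) (hd3 : d % 3 = 1) {z u : ℚ} (hz : z ∈ Pre d c) (hu : u ∈ Pre d c)
    (hz0 : z ≠ 0) (hu0 : u ≠ 0) (hF : F d c z ≠ F d c u)
    (h : ∀ p : ℕ, ∀ _ : Fact p.Prime, ‖(c : ℚ_[p])‖ ≤ 1 →
      ‖((F d c z - F d c u : ℚ) : ℚ_[p])‖ = 1) : Bad d c z u := by
  have hd0 : d ≠ 0 := by rintro rfl; omega
  have hd : 2 ≤ d := by omega
  have hde : Even d := by obtain ⟨k, hk⟩ := h4; exact ⟨2 * k, by omega⟩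
  have hzu : z ≠ u := by
    rintro rfl
    exact hF rfl
  have hzu' : z ≠ -u := by
    rintro rfl
    exact hF (F_neg hde u)
  have hctrl : Ctrl d c z u := by
    intro p hp _ hc
    left
    have := h p hp hc
    rwa [F_sub] at this
  have hctrl' : Ctrl d c z (-u) := by
    intro p hp _ hc
    left
    have := h p hp hc
    rwa [F_sub, ← hde.neg_pow u] at this
  by_cases hc2 : ‖(c : ℚ_[2])‖ ≤ 1
  · -- `2` is good
    apply ctrl_far h4 hd3 hz hu hz0 hu0 hctrl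
    intro hv
    have h1 := h 2 fact2 hc2
    rw [F_sub] at h1
    have hz1 := norm_le_one_of_pre hd hc2 hz
    have hu1 := norm_le_one_of_pre hd hc2 hu
    have hnorm : ‖(z : ℚ_[2])‖ = ‖(u : ℚ_[2])‖ := (norm_eq_iff hz0 hu0).2 hv
    -- `u` is a unit
    have hunit : ‖(u : ℚ_[2])‖ = 1 := by
      apply le_antisymm hu1
      by_contra hlt
      rw [not_le] at hlt
      have h2 : ‖((z ^ d - u ^ d : ℚ) : ℚ_[2])‖ ≤ ‖(u : ℚ_[2])‖ ^ d := by
        push_cast
        rw [sub_eq_add_neg]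
        refine (Padic.nonarchimedean _ _).trans (max_le ?_ ?_)
        · rw [norm_pow, hnorm]
        · rw [norm_neg, norm_pow]
      have h3 := pow_lt_one₀ (norm_nonneg (u : ℚ_[2])) hlt hd0
      linarith
    have hvu : padicValRat 2 u = 0 := (norm_eq_one_iff hu0).1 hunit
    have hvz : padicValRat 2 z = 0 := by rw [hv, hvu]
    have hq0 : z / u ≠ 0 := div_ne_zero hz0 hu0
    have hq : padicValRat 2 (z / u) = 0 := by rw [padicValRat.div hz0 hu0, hvu, hvz, sub_zero]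
    have h2 : ‖(((z / u) ^ d - 1 : ℚ) : ℚ_[2])‖ ≤ 1 / 4 := by
      rcases sign_or hq0 hq with h3 | h3
      · exact near_pow h3 d
      · have h4' : ‖((-(z / u) - 1 : ℚ) : ℚ_[2])‖ ≤ 1 / 4 := by
          rw [show -(z / u) - 1 = -(z / u + 1) by ring]
          push_cast at h3 ⊢
          rw [norm_neg]
          exact h3
        have := near_pow h4' d
        rwa [hde.neg_pow] at this
    have h3 : z ^ d - u ^ d = u ^ d * ((z / u) ^ d - 1) := by
      rw [div_pow]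
      field_simp
    rw [h3] at h1
    push_cast at h1 h2
    rw [norm_mul, norm_pow, hunit, one_pow, one_mul] at h1
    linarith
  · rw [not_le] at hc2
    have hvv := val_eq_of_pre hd hc2 hz hu
    have hq0 : z / u ≠ 0 := div_ne_zero hz0 hu0
    have hq : padicValRat 2 (z / u) = 0 := by rw [padicValRat.div hz0 hu0, hvv, sub_self]
    rcases sign_or hq0 hq with h3 | h3
    · exact ctrl_close h4 hd3 hz hu hz0 hu0 hzu hzu' hctrl h3
    · rw [← bad_neg hde]
      refine ctrl_close h4 hd3 hz (neg_mem hde hu) hz0 (neg_ne_zero.2 hu0) hzu' ?_ hctrl' ?_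
      · rwa [neg_neg]
      · rw [show z / -u - 1 = -(z / u + 1) by rw [div_neg]; ring]
        push_cast at h3 ⊢
        rw [norm_neg]
        exact h3

end Pool.Agent.MP90787a.Uni
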