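import Mathlib
import Pool.Agent.Lib.MP_90787a_nt.Uni.Pairs

/-!
# Uniform bound for the rational preperiodic points of `x ^ d + c`
-/

namespace Pool.Agent.MP90787a.Uni

open Function

variable {d : ℕ} {c : ℚ}

/-! ### Counting -/

theorem encard_le_of_finset {A : Set ℚ} {n : ℕ} (h : ∀ S : Finset ℚ, (S : Set ℚ) ⊆ A → S.card ≤ n) :
    A.encard ≤ n := by
  by_contra hlt
  rw [not_le] at hlt
  have h1 : ((n + 1 : ℕ) : ℕ∞) ≤ A.encard := by
    have := Order.add_one_le_of_lt hlt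
    exact_mod_cast this
  obtain ⟨t, htA, ht⟩ := Set.exists_subset_encard_eq h1
  have hfin : t.Finite := Set.finite_of_encard_eq_coe ht
  have h2 := h hfin.toFinset (by simpa using htA)
  have h3 : t.encard = hfin.toFinset.card := hfin.encard_eq_coe_toFinset_card
  rw [ht] at h3
  have h4 : n + 1 = hfin.toFinset.card := by exact_mod_cast h3
  omega

theorem encard_neg_le (A : Set ℚ) : {x : ℚ | -x ∈ A}.encard ≤ A.encard := by
  have : {x : ℚ | -x ∈ A} = (fun x : ℚ => -x) '' A := by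
    ext x
    constructor
    · intro h
      exact ⟨-x, h, neg_neg x⟩
    · rintro ⟨y, hy, rfl⟩
      simpa using hy
  rw [this]
  exact Set.encard_image_le _ _

theorem F_eq_iff (hd0 : d ≠ 0) {x u : ℚ} (h : F d c x = F d c u) : x = u ∨ x = -u := by
  by_contra hh
  rw [not_or] at hh
  exact F_ne_of_ne hd0 hh.1 hh.2 h

theorem encard_preimage_le (hd0 : d ≠ 0) (A : Set ℚ) :
    {x : ℚ | F d c x ∈ A}.encard ≤ 2 * A.encard := by
  classical
  let g : ℚ → ℚ := fun a => if h : ∃ x, F d c x = a then h.choose else 0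
  have hg : ∀ x, F d c (g (F d c x)) = F d c x := by
    intro x
    have h : ∃ y, F d c y = F d c x := ⟨x, rfl⟩
    show F d c (if h : ∃ y, F d c y = F d c x then h.choose else 0) = F d c x
    rw [dif_pos h]
    exact h.choose_spec
  have hsub : {x : ℚ | F d c x ∈ A} ⊆ g '' A ∪ (fun a => -g a) '' A := by
    intro x hx
    rcases F_eq_iff hd0 (hg x) with h | h
    · exact Or.inl ⟨F d c x, hx, h⟩
    · refine Or.inr ⟨F d c x, hx, ?_⟩
      simp only [h, neg_neg]
  calc {x : ℚ | F d c x ∈ A}.encard ≤ (g '' A ∪ (fun a => -g a) '' A).encard :=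
        Set.encard_le_encard hsub
    _ ≤ (g '' A).encard + ((fun a => -g a) '' A).encard := Set.encard_union_le _ _
    _ ≤ A.encard + A.encard := add_le_add (Set.encard_image_le _ _) (Set.encard_image_le _ _)
    _ = 2 * A.encard := (two_mul _).symm

/-! ### The case where `0` is preperiodic -/

theorem not_pre_of_large (hd : 4 ≤ d) {x : ℚ} (hx : 2 ≤ |x|) (hc : |c| ≤ |x|) : x ∉ Pre d c := by
  have step : ∀ y : ℚ, 2 ≤ |y| → |c| ≤ |y| → |y| < |F d c y| := by
    intro y hy hcy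
    have h1 : |y| ^ 4 ≤ |y| ^ d := pow_le_pow_right₀ (by linarith) hd
    have h2 : |y| ^ d - |c| ≤ |F d c y| := by
      unfold F
      have := abs_sub_abs_le_abs_sub (y ^ d) (-c)
      rw [abs_neg, abs_pow, sub_neg_eq_add] at this
      exact this
    have h3 : 8 * |y| ≤ |y| ^ 4 := by
      have h4 : (2 : ℚ) ^ 3 ≤ |y| ^ 3 := pow_le_pow_left₀ (by norm_num) hy 3
      have h5 : |y| ^ 4 = |y| ^ 3 * |y| := by ring
      rw [h5]
      norm_num at h4
      exact mul_le_mul_of_nonneg_right h4 (abs_nonneg y)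
    linarith
  have all : ∀ n, 2 ≤ |(F d c)^[n] x| ∧ |c| ≤ |(F d c)^[n] x| := by
    intro n
    induction n with
    | zero => exact ⟨hx, hc⟩
    | succ n ih =>
      rw [iterate_succ_apply']
      have h3 := step _ ih.1 ih.2
      exact ⟨ih.1.trans h3.le, ih.2.trans h3.le⟩
  have mono : StrictMono (fun n => |(F d c)^[n] x|) := by
    apply strictMono_nat_of_lt_succ
    intro n
    rw [iterate_succ_apply']
    exact step _ (all n).1 (all n).2
  rintro ⟨i, j, hij, h⟩
  have := mono hij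
  simp only [h, lt_self_iff_false] at this

theorem exists_int {x : ℚ} (h : ∀ p : ℕ, ∀ _ : Fact p.Prime, ‖(x : ℚ_[p])‖ ≤ 1) :
    ∃ z : ℤ, x = z := by
  have hden : x.den = 1 := by
    by_contra h1
    obtain ⟨p, hp, hpd⟩ := Nat.exists_prime_and_dvd h1
    have hfact := Fact.mk hp
    have h2 : ¬ p ∣ x.num.natAbs := fun h3 =>
      hp.one_lt.ne' (Nat.eq_one_of_dvd_coprimes x.reduced h3 hpd)
    have h3 : padicValRat p x < 0 := by
      rw [padicValRat_def, padicValInt, padicValNat.eq_zero_of_not_dvd h2]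
      have := one_le_padicValNat_of_dvd x.den_nz hpd
      omega
    have h4 := one_lt_norm_iff.2 h3
    have h5 := h p hfact
    linarith
  exact ⟨x.num, ((Rat.den_eq_one_iff x).1 hden).symm⟩

theorem zero_case (hd : 4 ≤ d) (h0 : (0 : ℚ) ∈ Pre d c) : Pre d c ⊆ {-1, 0, 1} := by
  have hgood : ∀ p : ℕ, ∀ _ : Fact p.Prime, ‖(c : ℚ_[p])‖ ≤ 1 := by
    intro p hp
    by_contra h
    rw [not_le] at h
    exact ne_zero_of_pre (by omega) h h0 rfl
  have hc : c ∈ Pre d c := by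
    have := F_mem h0
    unfold F at this
    rwa [zero_pow (by omega), zero_add] at this
  have hc2 : |c| < 2 := by
    by_contra h
    rw [not_lt] at h
    exact not_pre_of_large hd h le_rfl hc
  intro x hx
  have hx2 : |x| < 2 := by
    by_contra h
    rw [not_lt] at h
    exact not_pre_of_large hd h (by linarith) hx
  obtain ⟨z, hz⟩ := exists_int (fun p hp => norm_le_one_of_pre (by omega) (hgood p hp) hx)
  rw [hz] at hx2 ⊢
  have h1 : |z| < 2 := by exact_mod_cast hx2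
  rw [abs_lt] at h1
  have h2 : z = -1 ∨ z = 0 ∨ z = 1 := by omega
  rcases h2 with h | h | h <;> simp [h]

/-! ### Periodic points -/

theorem even_of (h4 : 4 ∣ d) : Even d := by
  obtain ⟨k, hk⟩ := h4
  exact ⟨2 * k, by omega⟩

/-- The sum of two distinct periodic points is a unit at all good places. -/
theorem sum_unit (h4 : 4 ∣ d) (hd : 2 ≤ d) {p : ℕ} [hp : Fact p.Prime] (hc : ‖(c : ℚ_[p])‖ ≤ 1)
    {x y : ℚ} (hx : x ∈ periodicPts (F d c)) (hy : y ∈ periodicPts (F d c)) (hxy : x ≠ y) :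
    ‖((x + y : ℚ) : ℚ_[p])‖ = 1 := by
  obtain ⟨m, hm⟩ := h4
  have := (unit_forms_of_per hd hc hx hy hxy (e := 1) (m := m) (by omega)).1
  rwa [pow_one, pow_one] at this

theorem norm_two : ‖((2 : ℚ) : ℚ_[2])‖ = 1 / 2 := by
  have h : ‖((2 : ℕ) : ℚ_[2])‖ = ((2 : ℕ) : ℝ)⁻¹ := Padic.norm_p
  push_cast at h ⊢
  rw [h]
  norm_num

/-- If `2` is good, there are at most two periodic points. -/
theorem per_good (h4 : 4 ∣ d) (hd : 2 ≤ d) (hc : ‖(c : ℚ_[2])‖ ≤ 1) {x y z : ℚ}
    (hx : x ∈ periodicPts (F d c)) (hy : y ∈ periodicPts (F d c)) (hz : z ∈ periodicPts (F d c))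
    (hxy : x ≠ y) (hyz : y ≠ z) (hxz : x ≠ z) : False := by
  have h1 := sum_unit h4 hd hc hx hy hxy
  have h2 := sum_unit h4 hd hc hy hz hyz
  have h3 := sum_unit h4 hd hc hx hz hxz
  have hz1 := norm_le_one_of_pre hd hc (per_mem hz)
  have hab0 : (x + y) ≠ 0 := by
    intro h
    rw [h] at h1
    simp at h1
  have hbc0 : (y + z) ≠ 0 := by
    intro h
    rw [h] at h2
    simp at h2
  have hq0 : (x + y) / (y + z) ≠ 0 := div_ne_zero hab0 hbc0
  have hq : padicValRat 2 ((x + y) / (y + z)) = 0 := by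
    rw [padicValRat.div hab0 hbc0, (norm_eq_one_iff hab0).1 h1, (norm_eq_one_iff hbc0).1 h2, sub_zero]
  have h5 : ‖(((x + y) / (y + z) - 1 : ℚ) : ℚ_[2])‖ ≤ 1 / 2 := by
    rcases sign_or hq0 hq with h | h
    · exact h.trans (by norm_num)
    · have e : (x + y) / (y + z) - 1 = ((x + y) / (y + z) + 1) + -2 := by ring
      rw [e]
      have := Padic.nonarchimedean (((x + y) / (y + z) + 1 : ℚ) : ℚ_[2]) ((-2 : ℚ) : ℚ_[2])
      rw [← Rat.cast_add] at this
      refine this.trans (max_le (h.trans (by norm_num)) ?_)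
      have h6 : ‖((-2 : ℚ) : ℚ_[2])‖ = ‖((2 : ℚ) : ℚ_[2])‖ := by
        rw [Rat.cast_neg, norm_neg]
      rw [h6, norm_two]
  have h6 : x - z = (y + z) * ((x + y) / (y + z) - 1) := by
    field_simp
    ring
  have h7 : ‖((x - z : ℚ) : ℚ_[2])‖ ≤ 1 / 2 := by
    rw [h6, Rat.cast_mul, norm_mul, h2, one_mul]
    exact h5
  have h8 : x + z = (x - z) + 2 * z := by ring
  have h9 := Padic.nonarchimedean ((x - z : ℚ) : ℚ_[2]) ((2 * z : ℚ) : ℚ_[2])
  rw [← Rat.cast_add, ← h8, h3] at h9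
  have h10 : ‖((2 * z : ℚ) : ℚ_[2])‖ ≤ 1 / 2 := by
    rw [Rat.cast_mul, norm_mul, norm_two]
    have := norm_nonneg (z : ℚ_[2])
    linarith
  have := h9.trans (max_le h7 h10)
  norm_num at this

/-- Two points on the same side of `r` are close to each other. -/
theorem near_of_same {x y r ε : ℚ} (hr : r ≠ 0) (hy0 : y ≠ 0)
    (hx : ‖((x / r - ε : ℚ) : ℚ_[2])‖ ≤ 1 / 4) (hy : ‖((y / r - ε : ℚ) : ℚ_[2])‖ ≤ 1 / 4)
    (hyr : ‖((y / r : ℚ) : ℚ_[2])‖ = 1) : ‖((x / y - 1 : ℚ) : ℚ_[2])‖ ≤ 1 / 4 := by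
  have e : x / y - 1 = ((x / r - ε) + -(y / r - ε)) / (y / r) := by
    field_simp
    ring
  rw [e, Rat.cast_div, norm_div, hyr, div_one, Rat.cast_add, Rat.cast_neg]
  refine (Padic.nonarchimedean _ _).trans (max_le hx ?_)
  rw [norm_neg]
  exact hy

/-- Among three periodic points two are close to each other (`2` bad). -/
theorem sides (hd : 2 ≤ d) (hc : 1 < ‖(c : ℚ_[2])‖) {r : ℚ} (hr : r ∈ Pre d c) :
    ∃ s : ℚ → Bool, ∀ x ∈ Pre d c, ∀ y ∈ Pre d c, s x = s y →
      ‖((x / y - 1 : ℚ) : ℚ_[2])‖ ≤ 1 / 4 := by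
  classical
  refine ⟨fun x => decide (‖((x / r - 1 : ℚ) : ℚ_[2])‖ ≤ 1 / 4), ?_⟩
  intro x hx y hy hxy
  have hr0 := ne_zero_of_pre hd hc hr
  have hx0 := ne_zero_of_pre hd hc hx
  have hy0 := ne_zero_of_pre hd hc hy
  have hyr0 : y / r ≠ 0 := div_ne_zero hy0 hr0
  have hxr0 : x / r ≠ 0 := div_ne_zero hx0 hr0
  have hyv : padicValRat 2 (y / r) = 0 := by
    rw [padicValRat.div hy0 hr0, val_eq_of_pre hd hc hy hr, sub_self]
  have hxv : padicValRat 2 (x / r) = 0 := by
    rw [padicValRat.div hx0 hr0, val_eq_of_pre hd hc hx hr, sub_self]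
  have hyr : ‖((y / r : ℚ) : ℚ_[2])‖ = 1 := (norm_eq_one_iff hyr0).2 hyv
  by_cases h : ‖((x / r - 1 : ℚ) : ℚ_[2])‖ ≤ 1 / 4
  · have h' : ‖((y / r - 1 : ℚ) : ℚ_[2])‖ ≤ 1 / 4 := by
      have : decide (‖((y / r - 1 : ℚ) : ℚ_[2])‖ ≤ 1 / 4) = true :=
        hxy.symm.trans (decide_eq_true h)
      exact of_decide_eq_true this
    exact near_of_same hr0 hy0 h h' hyr
  · have h' : ¬ ‖((y / r - 1 : ℚ) : ℚ_[2])‖ ≤ 1 / 4 := by
      have : decide (‖((y / r - 1 : ℚ) : ℚ_[2])‖ ≤ 1 / 4) = false :=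
        hxy.symm.trans (decide_eq_false h)
      exact of_decide_eq_false this
    have g1 := (sign_or hxr0 hxv).resolve_left h
    have g2 := (sign_or hyr0 hyv).resolve_left h'
    refine near_of_same (ε := -1) hr0 hy0 ?_ ?_ hyr
    · rw [sub_neg_eq_add]; exact g1
    · rw [sub_neg_eq_add]; exact g2

theorem bool_three (s : ℚ → Bool) (x y z : ℚ) : s x = s y ∨ s y = s z ∨ s x = s z := by
  cases s x <;> cases s y <;> cases s z <;> simp

/-- No bad pairs if no odd prime divides `d` exactly once. -/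
theorem not_bad (hw : ∀ q : ℕ, q.Prime → q ≠ 2 → padicValNat q d ≠ 1) (x y : ℚ) :
    ¬ Bad d c x y := by
  rintro ⟨q, hq, hq2, hqd, -⟩
  exact hw q hq hq2 hqd

theorem per_card_two (h4 : 4 ∣ d) (hd3 : d % 3 = 1)
    (hw : ∀ q : ℕ, q.Prime → q ≠ 2 → padicValNat q d ≠ 1) :
    (periodicPts (F d c)).encard ≤ 2 := by
  have hd : 2 ≤ d := by omega
  apply encard_le_of_finset (n := 2)
  intro S hS
  by_contra hlt
  rw [not_le] at hlt
  obtain ⟨x, hx, y, hy, z, hz, hxy, hxz, hyz⟩ := Finset.two_lt_card.1 hlt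
  have hx' := hS hx
  have hy' := hS hy
  have hz' := hS hz
  by_cases hc : ‖(c : ℚ_[2])‖ ≤ 1
  · exact per_good h4 hd hc hx' hy' hz' hxy hyz hxz
  · rw [not_le] at hc
    obtain ⟨s, hs⟩ := sides hd hc (per_mem hx')
    have key : ∀ a ∈ periodicPts (F d c), ∀ b ∈ periodicPts (F d c), a ≠ b → s a = s b → False := by
      intro a ha b hb hab hsab
      exact not_bad hw a b (per_close h4 hd3 ha hb (ne_zero_of_pre hd hc (per_mem ha))
        (ne_zero_of_pre hd hc (per_mem hb)) hab (hs a (per_mem ha) b (per_mem hb) hsab))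
    rcases bool_three s x y z with h | h | h
    · exact key x hx' y hy' hxy h
    · exact key y hy' z hz' hyz h
    · exact key x hx' z hz' hxz h

theorem per_card_four (h4 : 4 ∣ d) (hd3 : d % 3 = 1)
    (hw : ∀ q q' : ℕ, q.Prime → q'.Prime → q ≠ 2 → q' ≠ 2 → padicValNat q d = 1 →
      padicValNat q' d = 1 → q = q') :
    (periodicPts (F d c)).encard ≤ 4 := by
  have hd : 2 ≤ d := by omega
  apply encard_le_of_finset (n := 4)
  intro S hS
  by_contra hlt
  rw [not_le] at hlt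
  by_cases hc : ‖(c : ℚ_[2])‖ ≤ 1
  · obtain ⟨x, hx, y, hy, z, hz, hxy, hxz, hyz⟩ := Finset.two_lt_card.1 (show 2 < S.card by omega)
    exact per_good h4 hd hc (hS hx) (hS hy) (hS hz) hxy hyz hxz
  · rw [not_le] at hc
    obtain ⟨r, hr⟩ : ∃ r, r ∈ S := by
      have : S.Nonempty := Finset.card_pos.1 (by omega)
      exact this
    obtain ⟨s, hs⟩ := sides hd hc (per_mem (hS hr))
    obtain ⟨b, -, hb⟩ := Finset.exists_lt_card_fiber_of_mul_lt_card_of_maps_to
      (s := S) (t := (Finset.univ : Finset Bool)) (f := s) (n := 2) (fun a _ => Finset.mem_univ _)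
      (by simpa using hlt)
    obtain ⟨x, hx, y, hy, z, hz, hxy, hxz, hyz⟩ := Finset.two_lt_card.1 hb
    rw [Finset.mem_filter] at hx hy hz
    have hx' := hS hx.1
    have hy' := hS hy.1
    have hz' := hS hz.1
    have key : ∀ a ∈ periodicPts (F d c), ∀ b ∈ periodicPts (F d c), a ≠ b → s a = s b →
        Bad d c a b := by
      intro a ha b hb hab hsab
      exact per_close h4 hd3 ha hb (ne_zero_of_pre hd hc (per_mem ha))
        (ne_zero_of_pre hd hc (per_mem hb)) hab (hs a (per_mem ha) b (per_mem hb) hsab)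
    have key2 : ∀ a ∈ periodicPts (F d c), ∀ b ∈ periodicPts (F d c), a ≠ b → s a = s b →
        s (F d c a) = s (F d c b) → False := by
      intro a ha b hb hab hsab hsF
      have hne : F d c a ≠ F d c b := fun h => hab (per_inj ha hb h)
      have h1 := key a ha b hb hab hsab
      have h2 := key _ (F_per ha) _ (F_per hb) hne hsF
      exact bad_step hd hw hd3 (per_mem ha) (per_mem hb) hne h1 h2
    rcases bool_three s (F d c x) (F d c y) (F d c z) with h | h | h
    · exact key2 x hx' y hy' hxy (hx.2.trans hy.2.symm) h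
    · exact key2 y hy' z hz' hyz (hy.2.trans hz.2.symm) h
    · exact key2 x hx' z hz' hxz (hx.2.trans hz.2.symm) h

/-! ### Tails -/

theorem tail_one (hd0 : d ≠ 0) {x : ℚ} (hx : F d c x ∈ periodicPts (F d c)) :
    x ∈ periodicPts (F d c) ∨ -x ∈ periodicPts (F d c) := by
  obtain ⟨u, hu, h⟩ := exists_pre_per hx
  rcases F_eq_iff hd0 h with h | h
  · left; rw [← h]; exact hu
  · right; rw [← h]; exact hu

/-- General form: a controlled pair is `Bad` as soon as the valuations at `2` differ when `2` is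
good. -/
theorem ctrl_bad (h4 : 4 ∣ d) (hd3 : d % 3 = 1) {z u : ℚ} (hz : z ∈ Pre d c) (hu : u ∈ Pre d c)
    (hz0 : z ≠ 0) (hu0 : u ≠ 0) (hzu : z ≠ u) (hzu' : z ≠ -u) (hctrl : Ctrl d c z u)
    (h2 : ‖(c : ℚ_[2])‖ ≤ 1 → padicValRat 2 z ≠ padicValRat 2 u) : Bad d c z u := by
  have hd : 2 ≤ d := by omega
  have hde := even_of h4
  by_cases hc2 : ‖(c : ℚ_[2])‖ ≤ 1
  · exact ctrl_far h4 hd3 hz hu hz0 hu0 hctrl (h2 hc2)
  · rw [not_le] at hc2
    have hvv := val_eq_of_pre hd hc2 hz hu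
    have hq0 : z / u ≠ 0 := div_ne_zero hz0 hu0
    have hq : padicValRat 2 (z / u) = 0 := by rw [padicValRat.div hz0 hu0, hvv, sub_self]
    rcases sign_or hq0 hq with h3 | h3
    · exact ctrl_close h4 hd3 hz hu hz0 hu0 hzu hzu' hctrl h3
    · rw [← bad_neg hde]
      refine ctrl_close h4 hd3 hz (neg_mem hde hu) hz0 (neg_ne_zero.2 hu0) hzu' ?_ ?_ ?_
      · rwa [neg_neg]
      · intro p hp hp2 hc
        have := hctrl p hp hp2 hc
        rw [hde.neg_pow, Rat.cast_neg, norm_neg]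
        exact this
      · rw [show z / -u - 1 = -(z / u + 1) by rw [div_neg]; ring]
        rw [Rat.cast_neg, norm_neg]
        exact h3

/-- The case of a single periodic point. -/
theorem tail_single (h4 : 4 ∣ d) (hd3 : d % 3 = 1) (h0 : (0 : ℚ) ∉ Pre d c) {y z : ℚ}
    (hy : y ∈ periodicPts (F d c)) (hfix : F d c y = y) (hz : z ∈ Pre d c)
    (hzy : F d c z = -y) : False := by
  have hd0 : d ≠ 0 := by rintro rfl; omega
  have hd : 2 ≤ d := by omega
  have hde := even_of h4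
  have hy0 : y ≠ 0 := by
    rintro rfl
    exact h0 (per_mem hy)
  have hz0 : z ≠ 0 := by
    rintro rfl
    exact h0 hz
  have hsub : z ^ d - y ^ d = -(2 * y) := by
    rw [← F_sub (c := c), hzy, hfix]; ring
  have hzy1 : z ≠ y := by
    rintro rfl
    rw [hfix] at hzy
    exact hy0 (by linarith)
  have hzy2 : z ≠ -y := by
    rintro rfl
    rw [F_neg hde, hfix] at hzy
    exact hy0 (by linarith)
  have hnb : ¬ Bad d c z y := by
    rintro ⟨q, hq, hq2, -, -, hq3⟩
    have := Fact.mk hq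
    rw [hzy, hfix] at hq3
    have h1 : dl q (-y) y = 0 := by
      unfold dl
      rw [show -y - y = -(2 * y) by ring, padicValRat.neg, padicValRat.mul two_ne_zero hy0,
        val_two_odd hq2]
      ring
    rw [h1] at hq3
    norm_num at hq3
  apply hnb
  apply ctrl_bad h4 hd3 hz (per_mem hy) hz0 hy0 hzy1 hzy2
  · intro p hp hp2 hc
    by_cases hy1 : ‖(y : ℚ_[p])‖ = 1
    · left
      rw [hsub, Rat.cast_neg, norm_neg, Rat.cast_mul, norm_mul, hy1, mul_one]
      rw [norm_eq_one_iff two_ne_zero]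
      exact val_two_odd hp2
    · right
      intro heq
      have hy2 : ‖(y : ℚ_[p])‖ < 1 := lt_of_le_of_ne (norm_le_one_of_pre hd hc (per_mem hy)) hy1
      have h1 : ‖((z ^ d - y ^ d : ℚ) : ℚ_[p])‖ ≤ ‖(y : ℚ_[p])‖ ^ d := by
        push_cast
        rw [sub_eq_add_neg]
        refine (Padic.nonarchimedean _ _).trans (max_le ?_ ?_)
        · rw [norm_pow, heq]
        · rw [norm_neg, norm_pow]
      have h2 : ‖((z ^ d - y ^ d : ℚ) : ℚ_[p])‖ = ‖(y : ℚ_[p])‖ := by
        rw [hsub, Rat.cast_neg, norm_neg, Rat.cast_mul, norm_mul,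
          (norm_eq_one_iff (p := p) two_ne_zero).2 (val_two_odd hp2), one_mul]
      have hpos : 0 < ‖(y : ℚ_[p])‖ := by
        rw [norm_pos_iff]
        exact_mod_cast hy0
      have h3 : ‖(y : ℚ_[p])‖ ^ d < ‖(y : ℚ_[p])‖ := by
        have := pow_lt_pow_right_of_lt_one₀ hpos hy2 (show 1 < d by omega)
        rwa [pow_one] at this
      linarith
  · intro hc hv
    have heq : ‖(z : ℚ_[2])‖ = ‖(y : ℚ_[2])‖ := (norm_eq_iff hz0 hy0).2 hv
    have hpos : 0 < ‖(y : ℚ_[2])‖ := by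
      rw [norm_pos_iff]
      exact_mod_cast hy0
    have h2 : ‖((z ^ d - y ^ d : ℚ) : ℚ_[2])‖ = 1 / 2 * ‖(y : ℚ_[2])‖ := by
      rw [hsub, Rat.cast_neg, norm_neg, Rat.cast_mul, norm_mul, norm_two]
    -- `|z^d - y^d| ≤ |y|^d / 4`
    have hq0 : z / y ≠ 0 := div_ne_zero hz0 hy0
    have hq : padicValRat 2 (z / y) = 0 := by rw [padicValRat.div hz0 hy0, hv, sub_self]
    have h3 : ‖(((z / y) ^ d - 1 : ℚ) : ℚ_[2])‖ ≤ 1 / 4 := by
      rcases sign_or hq0 hq with h3 | h3
      · exact near_pow h3 d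
      · have h4' : ‖((-(z / y) - 1 : ℚ) : ℚ_[2])‖ ≤ 1 / 4 := by
          rw [show -(z / y) - 1 = -(z / y + 1) by ring, Rat.cast_neg, norm_neg]
          exact h3
        have := near_pow h4' d
        rwa [hde.neg_pow] at this
    have h5 : z ^ d - y ^ d = y ^ d * ((z / y) ^ d - 1) := by
      rw [div_pow]
      field_simp
    rw [h5, Rat.cast_mul, norm_mul, Rat.cast_pow, norm_pow] at h2
    have hy1 := norm_le_one_of_pre hd hc (per_mem hy)
    have h6 : ‖(y : ℚ_[2])‖ ^ d ≤ ‖(y : ℚ_[2])‖ := by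
      have := pow_le_pow_of_le_one hpos.le hy1 (show 1 ≤ d by omega)
      rwa [pow_one] at this
    have h7 := norm_nonneg (((z / y) ^ d - 1 : ℚ) : ℚ_[2])
    nlinarith

/-- The case of several periodic points, first step. -/
theorem tail_two (h4 : 4 ∣ d) (hd3 : d % 3 = 1) (h0 : (0 : ℚ) ∉ Pre d c) {y z u : ℚ}
    (hy : y ∈ periodicPts (F d c)) (hy' : -y ∉ periodicPts (F d c)) (hz : z ∈ Pre d c)
    (hzy : F d c z = -y) (hu : u ∈ periodicPts (F d c)) (huy : F d c u ≠ y) :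
    Bad d c z u ∧ ∀ p : ℕ, ∀ _ : Fact p.Prime, ‖(c : ℚ_[p])‖ ≤ 1 →
      ‖((F d c z - F d c u : ℚ) : ℚ_[p])‖ = 1 := by
  have hd : 2 ≤ d := by omega
  have hunit : ∀ p : ℕ, ∀ _ : Fact p.Prime, ‖(c : ℚ_[p])‖ ≤ 1 →
      ‖((F d c z - F d c u : ℚ) : ℚ_[p])‖ = 1 := by
    intro p hp hc
    have h1 := sum_unit h4 hd hc hy (F_per hu) huy.symm
    rw [hzy, show -y - F d c u = -(y + F d c u) by ring, Rat.cast_neg, norm_neg]
    exact h1
  refine ⟨unit_pair h4 hd3 hz (per_mem hu) ?_ ?_ ?_ hunit, hunit⟩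
  · rintro rfl
    exact h0 hz
  · rintro rfl
    exact h0 (per_mem hu)
  · intro h
    rw [hzy] at h
    exact hy' (by rw [h]; exact F_per hu)

/-- The case of several periodic points, second step. -/
theorem tail_three (h4 : 4 ∣ d) (hd3 : d % 3 = 1) (h0 : (0 : ℚ) ∉ Pre d c)
    (hw : ∀ q q' : ℕ, q.Prime → q'.Prime → q ≠ 2 → q' ≠ 2 → padicValNat q d = 1 →
      padicValNat q' d = 1 → q = q') {y z u : ℚ}
    (hy : y ∈ periodicPts (F d c)) (hy' : -y ∉ periodicPts (F d c)) (hz : z ∈ Pre d c)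
    (hzy : F d c (F d c z) = -y) (hu : u ∈ periodicPts (F d c)) (huy : F d c (F d c u) ≠ y) :
    False := by
  have hd : 2 ≤ d := by omega
  obtain ⟨hbad, hunit⟩ := tail_two h4 hd3 h0 hy hy' (F_mem hz) hzy (F_per hu) huy
  have hne1 : F d c z ≠ F d c u := by
    intro h
    rw [h] at hzy
    exact hy' (by rw [← hzy]; exact F_per (F_per hu))
  have hunit' : ∀ p : ℕ, ∀ _ : Fact p.Prime, ‖(c : ℚ_[p])‖ ≤ 1 →
      ‖((F d c z - F d c u : ℚ) : ℚ_[p])‖ = 1 := by
    intro p hp hc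
    have h1 := hunit p hp hc
    rw [F_sub] at h1
    obtain ⟨m, hm⟩ := h4
    have h2 := (unit_forms_of_unit (norm_le_one_of_pre hd hc (F_mem hz))
      (norm_le_one_of_pre hd hc (F_mem (per_mem hu))) h1 (e := 1) (m := m) (by omega)).1
    rwa [pow_one, pow_one] at h2
  have hbad' : Bad d c z u := by
    refine unit_pair h4 hd3 hz (per_mem hu) ?_ ?_ hne1 hunit'
    · rintro rfl
      exact h0 hz
    · rintro rfl
      exact h0 (per_mem hu)
  exact bad_step hd hw hd3 hz (per_mem hu) hne1 hbad' hbad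

/-- Structure of tails. -/
theorem tail_shape (h4 : 4 ∣ d) (hd3 : d % 3 = 1) (h0 : (0 : ℚ) ∉ Pre d c) {z : ℚ}
    (hz : z ∈ Pre d c) (h1 : F d c z ∉ periodicPts (F d c))
    (h2 : F d c (F d c z) ∈ periodicPts (F d c)) :
    ∃ y ∈ periodicPts (F d c), -y ∉ periodicPts (F d c) ∧ F d c z = -y ∧
      ∃ u ∈ periodicPts (F d c), F d c u ≠ y := by
  have hd0 : d ≠ 0 := by rintro rfl; omega
  rcases tail_one hd0 h2 with h | h
  · exact absurd h h1
  · refine ⟨-F d c z, h, by rwa [neg_neg], by rw [neg_neg], ?_⟩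
    by_contra hcon
    push Not at hcon
    have hfix : F d c (-F d c z) = -F d c z := hcon _ h
    exact tail_single h4 hd3 h0 h hfix hz (by rw [neg_neg])

theorem pre_subset_zero (h4 : 4 ∣ d) (hd3 : d % 3 = 1) (h0 : (0 : ℚ) ∉ Pre d c)
    (hw : ∀ q : ℕ, q.Prime → q ≠ 2 → padicValNat q d ≠ 1) :
    Pre d c ⊆ periodicPts (F d c) ∪ {x | -x ∈ periodicPts (F d c)} := by
  classical
  have hd0 : d ≠ 0 := by rintro rfl; omega
  intro x hx
  have hex := exists_per hx
  have hspec := Nat.find_spec hex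
  have hmin := fun m => Nat.find_min hex (m := m)
  obtain ⟨m, hm⟩ : ∃ m, m = Nat.find hex := ⟨_, rfl⟩
  rw [← hm] at hspec hmin
  rcases Nat.lt_or_ge m 2 with hm2 | hm2
  · interval_cases m
    · exact Or.inl hspec
    · exact tail_one hd0 hspec
  · exfalso
    obtain ⟨k, rfl⟩ : ∃ k, m = k + 2 := ⟨m - 2, by omega⟩
    have e1 : F d c ((F d c)^[k] x) = (F d c)^[k + 1] x := (iterate_succ_apply' _ _ _).symm
    have e2 : F d c ((F d c)^[k + 1] x) = (F d c)^[k + 2] x := (iterate_succ_apply' _ _ _).symm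
    have h1 : F d c ((F d c)^[k] x) ∉ periodicPts (F d c) := by
      rw [e1]; exact hmin (k + 1) (by omega)
    have h2 : F d c (F d c ((F d c)^[k] x)) ∈ periodicPts (F d c) := by
      rw [e1, e2]; exact hspec
    obtain ⟨y, hy, hy', hzy, u, hu, huy⟩ := tail_shape h4 hd3 h0 (iter_mem hx k) h1 h2
    exact not_bad hw _ _ (tail_two h4 hd3 h0 hy hy' (iter_mem hx k) hzy hu huy).1

theorem pre_subset_one (h4 : 4 ∣ d) (hd3 : d % 3 = 1) (h0 : (0 : ℚ) ∉ Pre d c)
    (hw : ∀ q q' : ℕ, q.Prime → q'.Prime → q ≠ 2 → q' ≠ 2 → padicValNat q d = 1 →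
      padicValNat q' d = 1 → q = q') :
    Pre d c ⊆ {x | F d c x ∈ periodicPts (F d c) ∪ {x | -x ∈ periodicPts (F d c)}} := by
  classical
  have hd0 : d ≠ 0 := by rintro rfl; omega
  intro x hx
  have hex := exists_per hx
  have hspec := Nat.find_spec hex
  have hmin := fun m => Nat.find_min hex (m := m)
  obtain ⟨m, hm⟩ : ∃ m, m = Nat.find hex := ⟨_, rfl⟩
  rw [← hm] at hspec hmin
  rcases Nat.lt_or_ge m 3 with hm2 | hm2
  · interval_cases m
    · exact Or.inl (F_per hspec)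
    · exact Or.inl hspec
    · exact tail_one hd0 hspec
  · exfalso
    obtain ⟨k, rfl⟩ : ∃ k, m = k + 3 := ⟨m - 3, by omega⟩
    have e0 : F d c ((F d c)^[k] x) = (F d c)^[k + 1] x := (iterate_succ_apply' _ _ _).symm
    have e1 : F d c ((F d c)^[k + 1] x) = (F d c)^[k + 2] x := (iterate_succ_apply' _ _ _).symm
    have e2 : F d c ((F d c)^[k + 2] x) = (F d c)^[k + 3] x := (iterate_succ_apply' _ _ _).symm
    have h1 : F d c (F d c ((F d c)^[k] x)) ∉ periodicPts (F d c) := by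
      rw [e0, e1]; exact hmin (k + 2) (by omega)
    have h2 : F d c (F d c (F d c ((F d c)^[k] x))) ∈ periodicPts (F d c) := by
      rw [e0, e1, e2]; exact hspec
    obtain ⟨y, hy, hy', hzy, u, hu, huy⟩ :=
      tail_shape h4 hd3 h0 (F_mem (iter_mem hx k)) h1 h2
    obtain ⟨v, hv, hvu⟩ := exists_pre_per hu
    exact tail_three h4 hd3 h0 hw hy hy' (iter_mem hx k) hzy hv (by rw [hvu]; exact huy)

theorem main_zero (h4 : 4 ∣ d) (hd3 : d % 3 = 1)
    (hw : ∀ q : ℕ, q.Prime → q ≠ 2 → padicValNat q d ≠ 1) (c : ℚ) :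
    (Pre d c).encard ≤ 4 := by
  have hd : 4 ≤ d := by omega
  by_cases h0 : (0 : ℚ) ∈ Pre d c
  · refine (Set.encard_le_encard (zero_case hd h0)).trans ?_
    refine (Set.encard_insert_le _ _).trans ?_
    refine (add_le_add (Set.encard_insert_le _ _) le_rfl).trans ?_
    rw [Set.encard_singleton]
    norm_num
  · refine (Set.encard_le_encard (pre_subset_zero h4 hd3 h0 hw)).trans ?_
    refine (Set.encard_union_le _ _).trans ?_
    have h1 := per_card_two (c := c) h4 hd3 hw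
    have h2 := (encard_neg_le (periodicPts (F d c))).trans h1
    refine (add_le_add h1 h2).trans ?_
    norm_num

theorem main_one (h4 : 4 ∣ d) (hd3 : d % 3 = 1)
    (hw : ∀ q q' : ℕ, q.Prime → q'.Prime → q ≠ 2 → q' ≠ 2 → padicValNat q d = 1 →
      padicValNat q' d = 1 → q = q') (c : ℚ) :
    (Pre d c).encard ≤ 16 := by
  have hd : 4 ≤ d := by omega
  have hd0 : d ≠ 0 := by omega
  by_cases h0 : (0 : ℚ) ∈ Pre d c
  · refine (Set.encard_le_encard (zero_case hd h0)).trans ?_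
    refine (Set.encard_insert_le _ _).trans ?_
    refine (add_le_add (Set.encard_insert_le _ _) le_rfl).trans ?_
    rw [Set.encard_singleton]
    norm_num
  · refine (Set.encard_le_encard (pre_subset_one h4 hd3 h0 hw)).trans ?_
    refine (encard_preimage_le hd0 _).trans ?_
    have h1 := per_card_four (c := c) h4 hd3 hw
    have h2 := (encard_neg_le (periodicPts (F d c))).trans h1
    have h3 := (Set.encard_union_le (periodicPts (F d c)) {x | -x ∈ periodicPts (F d c)}).trans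
      (add_le_add h1 h2)
    calc 2 * (periodicPts (F d c) ∪ {x | -x ∈ periodicPts (F d c)}).encard
        ≤ 2 * (4 + 4) := mul_le_mul_right h3 2
      _ = 16 := by norm_num

end Pool.Agent.MP90787a.Uni
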